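import Pool.Agent.Lib.MP_688fd0_co.SQ2.TW

/-!
A periodic chain of translated windows is a flat window with three strands.
-/

set_option autoImplicit false

namespace Pool.Agent.Lib.MP_688fd0_co.SQ2

open Pool.Agent.Lib.MP_688fd0_co.OSF

universe u v w

variable {Q : Type u} [Group Q] [DecidableEq Q] {B : Lb.{u, v} Q}

namespace TW

/-- The relative motion of the tokens in one link of the chain. -/
def rel (T : TW B) (D : Q) (x : Q) : Q := D⁻¹ * (if T.f x = D * T.u₀ then T.w₁ else T.f x)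

theorem rel_mem (T : TW B) (D : Q) (hL : T.L₁ = lt D T.L₀) (h0 : T.w₀ = D * T.u₁)
    (h1 : T.w₁ ≠ D * T.u₀) {x : Q} (hx : x ∈ T.tok₀) : T.rel D x ∈ T.tok₀ := by
  have hx' := mem_tok₀.1 hx
  obtain ⟨a1, a2, a3⟩ := T.f_mem x hx'.1 hx'.2.1 hx'.2.2
  rw [mem_tok₀]
  unfold rel
  by_cases h : T.f x = D * T.u₀
  · rw [if_pos h]
    refine ⟨mem_lt.1 (hL ▸ T.hw₁), fun h2 => h1 (by rw [← h2]; group), fun h2 => T.hw ?_⟩
    rw [h0, ← h2]; group
  · rw [if_neg h]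
    refine ⟨mem_lt.1 (hL ▸ a1), fun h2 => h (by rw [← h2]; group), fun h2 => a2 ?_⟩
    rw [h0, ← h2]; group

theorem rel_inj (T : TW B) (D : Q) {x y : Q} (hx : x ∈ T.tok₀) (hy : y ∈ T.tok₀)
    (h : T.rel D x = T.rel D y) : x = y := by
  have hx' := mem_tok₀.1 hx
  have hy' := mem_tok₀.1 hy
  obtain ⟨a1, a2, a3⟩ := T.f_mem x hx'.1 hx'.2.1 hx'.2.2
  obtain ⟨b1, b2, b3⟩ := T.f_mem y hy'.1 hy'.2.1 hy'.2.2
  unfold rel at h
  have h := mul_left_cancel h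
  refine T.f_inj x hx'.1 hx'.2.1 hx'.2.2 y hy'.1 hy'.2.1 hy'.2.2 ?_
  by_cases c : T.f x = D * T.u₀ <;> by_cases d : T.f y = D * T.u₀
  · rw [c, d]
  · rw [if_pos c, if_neg d] at h; exact absurd h.symm b3
  · rw [if_neg c, if_pos d] at h; exact absurd h a3
  · rwa [if_neg c, if_neg d] at h

/-- The chain with `k + 1` links. -/
theorem chain_aux (T : TW B) (D : Q) (hL : T.L₁ = lt D T.L₀) (h0 : T.w₀ = D * T.u₁)
    (h1 : T.w₁ ≠ D * T.u₀) (k : ℕ) :
    ∃ X : TW B, X.L₀ = T.L₀ ∧ X.L₁ = lt (D ^ (k + 1)) T.L₀ ∧ X.u₀ = T.u₀ ∧ X.u₁ = T.u₁ ∧ X.cup = T.cup ∧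
      X.w₀ = D ^ (k + 1) * T.u₁ ∧ X.w₁ = D ^ k * T.w₁ ∧ X.cap = T.cap ∧
      X.R = ∑ i ∈ Finset.range (k + 1), T.R.map (D ^ i * ·) ∧
      ∀ x ∈ T.tok₀, (if X.f x = D ^ (k + 1) * T.u₀ then D ^ k * T.w₁ else X.f x) =
        D ^ (k + 1) * (T.rel D)^[k + 1] x := by
  induction k with
  | zero =>
    refine ⟨T, rfl, by rw [zero_add, pow_one, hL], rfl, rfl, rfl, by rw [zero_add, pow_one, h0],
      by rw [pow_zero, one_mul], rfl, ?_, ?_⟩
    · rw [Finset.sum_range_succ, Finset.sum_range_zero, zero_add]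
      simp
    · intro x _
      rw [zero_add, pow_one, pow_zero, one_mul, Function.iterate_one]
      unfold rel
      rw [mul_inv_cancel_left]
  | succ k ih =>
    obtain ⟨X, e1, e2, e3, e4, e5, e6, e7, e8, e9, e10⟩ := ih
    have c1 : X.L₁ = (T.tr (D ^ (k + 1))).L₀ := e2
    have c2 : X.w₀ = (T.tr (D ^ (k + 1))).u₁ := e6
    have c3 : X.w₁ ≠ (T.tr (D ^ (k + 1))).u₀ := by
      show X.w₁ ≠ D ^ (k + 1) * T.u₀
      rw [e7, pow_succ, mul_assoc]
      exact fun h => h1 (mul_left_cancel h)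
    refine ⟨X.comp (T.tr (D ^ (k + 1))) c1 c2 c3, e1, ?_, e3, e4, e5, ?_, rfl, rfl, ?_, ?_⟩
    · show lt (D ^ (k + 1)) T.L₁ = _
      rw [hL, ← lt_mul, ← pow_succ]
    · show D ^ (k + 1) * T.w₀ = _
      rw [h0, ← mul_assoc, ← pow_succ]
    · rw [comp_R, e9, tr_R, Finset.sum_range_succ _ (k + 1)]
    · intro x hx
      have hx' := mem_tok₀.1 hx
      have hX : x ∈ X.tok₀ := by rw [mem_tok₀, e1, e3, e4]; exact hx'
      have h2 := e10 x hx
      have h3 : jump X (T.tr (D ^ (k + 1))) (X.f x) = D ^ (k + 1) * (T.rel D)^[k + 1] x := by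
        rw [← h2]
        unfold jump
        show (if X.f x = D ^ (k + 1) * T.u₀ then X.w₁ else X.f x) = _
        rw [e7]
      have h4 : (X.comp (T.tr (D ^ (k + 1))) c1 c2 c3).f x =
          D ^ (k + 1) * T.f ((T.rel D)^[k + 1] x) := by
        show D ^ (k + 1) * T.f ((D ^ (k + 1))⁻¹ * jump X (T.tr (D ^ (k + 1))) (X.f x)) = _
        rw [h3, inv_mul_cancel_left]
      rw [h4, Function.iterate_succ_apply' (T.rel D) (k + 1)]
      generalize (T.rel D)^[k + 1] x = z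
      unfold rel
      rw [pow_succ D (k + 1), mul_assoc, mul_assoc]
      by_cases h : T.f z = D * T.u₀
      · rw [if_pos h, if_pos (by rw [h]), mul_inv_cancel_left]
      · rw [if_neg h, if_neg (fun h5 => h (mul_left_cancel h5)), mul_inv_cancel_left]

/-- The number of links after which all tokens are back. -/
theorem exists_period (T : TW B) (D : Q) (hL : T.L₁ = lt D T.L₀) (h0 : T.w₀ = D * T.u₁)
    (h1 : T.w₁ ≠ D * T.u₀) : ∀ x ∈ T.tok₀, (T.rel D)^[T.tok₀.card.factorial] x = x := by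
  classical
  have hbij : Set.BijOn (T.rel D) (T.tok₀ : Set Q) (T.tok₀ : Set Q) := by
    have hm : Set.MapsTo (T.rel D) (T.tok₀ : Set Q) (T.tok₀ : Set Q) := fun x hx =>
      T.rel_mem D hL h0 h1 hx
    have hi : Set.InjOn (T.rel D) (T.tok₀ : Set Q) := fun x hx y hy h => T.rel_inj D hx hy h
    refine ⟨hm, hi, ?_⟩
    exact Finset.surjOn_of_injOn_of_card_le _ hm hi le_rfl
  set e : Equiv.Perm (T.tok₀ : Set Q) := hbij.equiv (T.rel D) with he
  have hcard : Nat.card (T.tok₀ : Set Q) = T.tok₀.card := by simp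
  have h3 : e ^ T.tok₀.card.factorial = 1 := by
    rw [← hcard, ← Nat.card_perm]
    exact pow_card_eq_one'
  intro x hx
  have h4 : ∀ n : ℕ, ∀ y : (T.tok₀ : Set Q), ((e ^ n) y : Q) = (T.rel D)^[n] y := by
    intro n
    induction n with
    | zero => intro y; rfl
    | succ n ih =>
      intro y
      rw [pow_succ', Function.iterate_succ_apply']
      show (e ((e ^ n) y) : Q) = _
      rw [← ih y]
      rfl
  have h5 := h4 T.tok₀.card.factorial ⟨x, hx⟩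
  rw [h3] at h5
  exact h5.symm

/-- The common strand of the last cap, as a bottom vertex. -/
def xst (T : TW B) (D : Q) : Q := D⁻¹ * T.w₁

theorem xst_mem (T : TW B) (D : Q) (hL : T.L₁ = lt D T.L₀) (h0 : T.w₀ = D * T.u₁)
    (h1 : T.w₁ ≠ D * T.u₀) : T.xst D ∈ T.tok₀ := by
  rw [mem_tok₀]
  unfold xst
  refine ⟨mem_lt.1 (hL ▸ T.hw₁), fun h2 => h1 (by rw [← h2]; group), fun h2 => T.hw ?_⟩
  rw [h0, ← h2]; group

/-- CHAIN: the flat window with centre `u₁` and leaves `u₀` (below) and `xst` (above). -/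
theorem chain (T : TW B) (D : Q) (hL : T.L₁ = lt D T.L₀) (h0 : T.w₀ = D * T.u₁)
    (h1 : T.w₁ ≠ D * T.u₀) (N : ℕ) (hN : 0 < N) (hdiv : T.tok₀.card.factorial ∣ N) :
    ∃ X : TW B, X.L₀ = T.L₀ ∧ X.L₁ = lt (D ^ N) T.L₀ ∧ X.u₀ = T.u₀ ∧ X.u₁ = T.u₁ ∧ X.cup = T.cup ∧
      X.w₀ = D ^ N * T.u₁ ∧ X.w₁ = D ^ N * T.xst D ∧ X.cap = T.cap ∧
      X.R = ∑ i ∈ Finset.range N, T.R.map (D ^ i * ·) ∧
      (∀ x ∈ T.tok₀, x ≠ T.xst D → X.f x = D ^ N * x) ∧ X.f (T.xst D) = D ^ N * T.u₀ := by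
  obtain ⟨k, rfl⟩ : ∃ k, N = k + 1 := ⟨N - 1, by omega⟩
  obtain ⟨X, e1, e2, e3, e4, e5, e6, e7, e8, e9, e10⟩ := chain_aux T D hL h0 h1 k
  have hper : ∀ x ∈ T.tok₀, (T.rel D)^[k + 1] x = x := by
    obtain ⟨c, hc⟩ := hdiv
    intro x hx
    rw [hc, Function.iterate_mul]
    have hfix : Function.IsFixedPt ((T.rel D)^[T.tok₀.card.factorial]) x :=
      exists_period T D hL h0 h1 x hx
    exact hfix.iterate c
  have hw1 : D ^ k * T.w₁ = D ^ (k + 1) * T.xst D := by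
    unfold xst; rw [pow_succ, mul_assoc, mul_inv_cancel_left]
  have hnot : ∀ x ∈ T.tok₀, X.f x ≠ D ^ k * T.w₁ := by
    intro x hx
    have hx' := mem_tok₀.1 hx
    have := X.f_mem x (e1 ▸ hx'.1) (e3 ▸ hx'.2.1) (e4 ▸ hx'.2.2)
    rw [← e7]; exact this.2.2
  refine ⟨X, e1, e2, e3, e4, e5, e6, e7.trans hw1, e8, e9, ?_, ?_⟩
  · intro x hx hne
    have h2 := e10 x hx
    rw [hper x hx] at h2
    by_cases h : X.f x = D ^ (k + 1) * T.u₀
    · rw [if_pos h, hw1] at h2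
      exact absurd (mul_left_cancel h2).symm hne
    · rw [if_neg h] at h2; exact h2
  · have h2 := e10 _ (xst_mem T D hL h0 h1)
    rw [hper _ (xst_mem T D hL h0 h1), ← hw1] at h2
    by_contra h
    rw [if_neg h] at h2
    exact hnot _ (xst_mem T D hL h0 h1) h2

end TW

end Pool.Agent.Lib.MP_688fd0_co.SQ2
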