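import Pool.Agent.Lib.MP_688fd0_co.SQ2.Chain
import Pool.Agent.Lib.MP_688fd0_co.SQ2.ConnL
import Pool.Agent.Lib.MP_688fd0_co.OSF.Iface

/-!
Chapter W (windows): statements of the rows.
-/

set_option autoImplicit false

namespace Pool.Agent.Lib.MP_688fd0_co.SQ2

open Pool.Agent.Lib.MP_688fd0_co.OSF

universe u v w

/-- The tree condition on the set of lines: paths `l i - c i - m i`, to be removed in the order of `rk`. -/
structure TreeV {V : Type u} {ι : Type v} (c l m : ι → V) (rk : ι → ℕ) : Prop where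
  cl : ∀ i, c i ≠ l i
  cm : ∀ i, c i ≠ m i
  lm : ∀ i, l i ≠ m i
  two : ∀ i, ∃ p : V → Prop, ((p (c i) ∧ p (l i)) ∨ (p (c i) ∧ p (m i)) ∨ (p (l i) ∧ p (m i))) ∧
    ∀ x, p x → ∀ j, j ≠ i → (x = c j ∨ x = l j ∨ x = m j) → rk j < rk i
  cov : ∀ ρ : V → V → Prop, Equivalence ρ → (∀ i, ρ (c i) (l i) ∧ ρ (c i) (m i)) → ∀ p q, ρ p q

/-- TREE: a connected graph with an odd number of vertices: a spanning tree cut into paths of length two, with its
two-colouring `d`. -/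
def TreeS : Prop :=
  ∀ (V : Type u) [Fintype V] (E : V → V → Prop), (∀ x y, E x y → E y x) → (∀ x, ¬ E x x) →
    (∀ ρ : V → V → Prop, Equivalence ρ → (∀ x y, E x y → ρ x y) → ∀ x y, ρ x y) →
    Odd (Fintype.card V) →
    ∃ (d : V → Bool) (N : ℕ) (c l m : Fin N → V) (rk : Fin N → ℕ), TreeV c l m rk ∧
      (∀ i, E (c i) (l i) ∧ E (c i) (m i)) ∧ (∀ i, d (l i) = !d (c i) ∧ d (m i) = !d (c i))

/-- PLACE: translations by powers of `u` that make finitely many sets disjoint, if each of them can meet translates of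
few others only. -/
def PlaceLS : Prop :=
  ∀ (Q : Type u) [Group Q] [Finite Q] (u : Q) (ι : Type) [Fintype ι] (F : ι → Finset Q) (K M : ℕ),
    (∀ i, (F i).card ≤ K) →
    (∀ i, ∃ s : Finset ι, s.card ≤ M ∧ ∀ j, j ∉ s → ∀ y ∈ F i, ∀ z ∈ F j, ∀ a b : ℤ, u ^ a * y ≠ u ^ b * z) →
    M * K ^ 2 < orderOf u →
    ∃ x : ι → Q, (∀ i, x i ∈ Subgroup.zpowers u) ∧
      ∀ i j, i ≠ j → ∀ y ∈ F i, ∀ z ∈ F j, x i * y ≠ x j * z

section

variable {Q : Type u} [Group Q] [DecidableEq Q] {B : Lb.{u, v} Q}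

/-- A flat three-line window: centre `u₁`, leaves `u₀` and `xs`; `n` is its height. -/
structure Flat (a : B.L) (X : TW B) (n : ℕ) (xs : Q) : Prop where
  pos : 0 < n
  top : X.L₁ = rt X.L₀ (B.q a ^ n)
  reg : X.R = ∑ i ∈ Finset.range n, (rt X.L₀ (B.q a ^ i)).val
  xs_mem : xs ∈ X.tok₀
  w₀ : X.w₀ = X.u₁ * B.q a ^ n
  w₁ : X.w₁ = xs * B.q a ^ n
  f_xs : X.f xs = X.u₀ * B.q a ^ n
  f : ∀ x ∈ X.tok₀, x ≠ xs → X.f x = x * B.q a ^ n

end

/-- MERGE: flat windows along a tree give a tour; `d` is the direction of the lines. -/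
def MergeS : Prop :=
  ∀ (Q : Type u) [Group Q] [Fintype Q] [DecidableEq Q] (B : Lb.{u, v} Q) (a : B.L) (Λ : Type w) (ln : Q → Λ)
    (d : Q → Bool) (ι : Type) [Fintype ι] (X : ι → TW B) (n : ι → ℕ) (xs : ι → Q) (rk : ι → ℕ),
    (∀ x, ln (x * B.q a) = ln x) → (∀ x y, ln x = ln y → ∃ k : ℕ, y = x * B.q a ^ k) →
    Function.Surjective ln → (∀ x, d (x * B.q a) = d x) →
    (∀ i, Flat a (X i) (n i) (xs i)) →
    (∀ i, d (X i).u₀ = !d (X i).u₁ ∧ d (xs i) = !d (X i).u₁) →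
    Pos (B.q a) (fun i => (X i).L₀) n (fun i => (X i).u₁) (fun i => (X i).u₀) xs →
    TreeL ln (fun i => (X i).u₁) (fun i => (X i).u₀) xs rk →
    ∃ T : Tour B, ∀ i, (∀ x ∈ (X i).tok₀, T.Pass (d x) x ((X i).path x)) ∧
      T.Pass (d (X i).u₀) (X i).u₀ (X i).cup ∧ T.Pass (d (X i).u₀) (X i).w₀ (X i).cap

end Pool.Agent.Lib.MP_688fd0_co.SQ2
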