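import Pool.Agent.Lib.MP_688fd0_co.SQ2.H62.Blocks
import Pool.Agent.Lib.MP_688fd0_co.SQ2.Words2
import Pool.Agent.Lib.MP_688fd0_co.OSF.Iface2
import Pool.Agent.Lib.MP_688fd0_co.SQ2.H41.Defs

/-!
Board `sq2_modules`: every group of almost every odd order. Statements of the rows of the assembly (chair helper23).
See finding 'SQ2 ASSEMBLY' and the messages of 02:00Z.

`A = q a`; `D` normal, of order dividing `k`; `z` central, `A ∈ z D`; strands are segments `s, sA, sA², ..`; a sheet is a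
coset `w D = D w`; a frontier `F` is a union of sheets such that `F, FA, FA², ..` are disjoint as long as we need.
-/

set_option autoImplicit false

namespace Pool.Agent.Lib.MP_688fd0_co.SQ2

open Pool.Agent.Lib.MP_688fd0_co.OSF

/-- The common hypotheses at the level of the quotient. -/
structure Hyp {Q : Type} [Group Q] (B : Lb.{0, 0} Q) (a : B.L) (D : Subgroup Q) (z : Q) (k : ℕ) : Prop where
  fin : Finite Q
  odd : Odd (Nat.card Q)
  finL : Finite B.L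
  gen : Subgroup.closure (Set.range B.q) = ⊤
  nrm : D.Normal
  card : Nat.card D ∣ k
  kodd : Odd k
  cen : ∀ x : Q, z * x = x * z
  mem : z⁻¹ * B.q a ∈ D

section

variable {Q : Type} [Group Q] (B : Lb.{0, 0} Q) (a : B.L) (D : Subgroup Q)

/-- No label lies in `A ^ j D` for `2 ≤ |j| ≤ W`. -/
def Sink (W : ℕ) : Prop :=
  ∀ (b : B.L) (j : ℤ), 2 ≤ |j| → |j| ≤ W → (B.q a ^ j)⁻¹ * B.q b ∉ D

/-- No product of at most eight labels lies in `A ^ j D` for `c < |j| ≤ W`. -/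
def Sep (c W : ℕ) : Prop :=
  ∀ (l : List B.L) (j : ℤ), l.length ≤ 8 → (c : ℤ) < |j| → |j| ≤ W → (B.q a ^ j)⁻¹ * B.fin 1 l ∉ D

/-- The levels do not meet. -/
def Lev (W : ℕ) : Prop := ∀ j : ℤ, j ≠ 0 → |j| ≤ W → B.q a ^ j ∉ D

/-- A frontier. -/
structure Fr (W : ℕ) (F : Finset Q) : Prop where
  inv : ∀ s ∈ F, ∀ δ ∈ D, s * δ ∈ F
  disj : ∀ s ∈ F, ∀ t : ℤ, |t| ≤ W → s * B.q a ^ t ∈ F → t = 0

/-- FRONT: the choice of the sheets. `w₀` is in the frontier. -/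
def FrontS : Prop :=
  ∀ (Q : Type) [Group Q] (B : Lb.{0, 0} Q) (a : B.L) (D : Subgroup Q) (z : Q) (k : ℕ), Hyp B a D z k →
    ∀ (M : Finset Q) (c W : ℕ) (w₀ : Q), 2 * c ≤ W → w₀ ∈ M →
      (∀ w ∈ M, ∀ w' ∈ M, ∀ j : ℤ, (c : ℤ) < |j| → |j| ≤ W → (B.q a ^ j)⁻¹ * (w⁻¹ * w') ∉ D) → Lev B a D W →
      ∃ F : Finset Q, F.card ≤ M.card * k ∧ Fr B a D W F ∧ w₀ ∈ F ∧
        (∀ w ∈ M, ∃ j : ℤ, |j| ≤ c ∧ w * (B.q a ^ j)⁻¹ ∈ F) ∧ (∀ s ∈ F, ∃ w ∈ M, w⁻¹ * s ∈ D)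

end

/-- The height of the gadgets (`σ` = number of strands, `c` = collars). -/
def hgt (σ c : ℕ) : ℕ := 4 * σ.factorial + 4 * c + 8

/-! ### The tree and the frontiers -/

/-- The paths of length two: centre line of `x i`, leaves the lines of `x i b₁` and of `x i A ^ j b₂`, colours `d`, and
their frontiers. -/
structure Ctx {Q : Type} [Group Q] (B : Lb.{0, 0} Q) (a : B.L) (D : Subgroup Q) (k c W : ℕ) (d : Q → Bool) {ι : Type}
    (x : ι → Q) (b₁ b₂ : ι → B.L) (j : ι → ℕ) (F : ι → Finset Q) : Prop where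
  sink : Sink B a D W
  sep : Sep B a D c W
  lev : Lev B a D W
  d_line : ∀ y, d (y * B.q a) = d y
  d₁ : ∀ i, d (x i * B.q (b₁ i)) = !d (x i)
  d₂ : ∀ i, d (x i * B.q a ^ j i * B.q (b₂ i)) = !d (x i)
  j_lt : ∀ i, j i < k
  /-- the two leaves are different lines -/
  ne : ∀ i (t : ℤ), x i * B.q (b₁ i) * B.q a ^ t ≠ x i * B.q a ^ j i * B.q (b₂ i)
  /-- every line occurs -/
  cov : ∀ y, ∃ i, ∃ t : ℤ, y = x i * B.q a ^ t ∨ y = x i * B.q (b₁ i) * B.q a ^ t ∨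
    y = x i * B.q a ^ j i * B.q (b₂ i) * B.q a ^ t
  fr : ∀ i, Fr B a D W (F i)
  fx : ∀ i, x i ∈ F i
  /-- all sheets at distance at most four are there (up to a small level) -/
  fsh : ∀ i (l : List B.L), l.length ≤ 4 → ∃ o : ℤ, |o| ≤ c ∧ B.fin (x i) l * (B.q a ^ o)⁻¹ ∈ F i
  /-- and no others -/
  fsub : ∀ i, ∀ s ∈ F i, ∃ l : List B.L, l.length ≤ 4 ∧ ∃ o : ℤ, (B.fin (x i) l * B.q a ^ o)⁻¹ * s ∈ D
  fcard : ∀ i, (F i).card ≤ (Nat.card B.L + 2) ^ 4 * k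

/-- A flat window of the path number `i`, of height `n`; `s₁`, `s₂` are the strands of the leaves. It starts at the
level `t₀`. -/
structure FWin {Q : Type} [Group Q] [DecidableEq Q] {B : Lb.{0, 0} Q} (a : B.L) (k : ℕ) (F : Finset Q) (t₀ : ℕ)
    (x s₁ s₂ : Q) (X : TW B) (n : ℕ) : Prop where
  L₀ : X.L₀ = rt F (B.q a ^ t₀)
  u₁ : X.u₁ = x * B.q a ^ t₀
  u₀ : X.u₀ = s₁ * B.q a ^ t₀
  flat : Flat a X n (s₂ * B.q a ^ t₀)
  dvd : k ∣ n

/-- The strands of the leaves. -/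
structure Leaves {Q : Type} [Group Q] {B : Lb.{0, 0} Q} (a : B.L) (F : Finset Q) (x : Q) (b₁ b₂ : B.L) (j c : ℕ)
    (s₁ s₂ : Q) : Prop where
  h₁ : s₁ ∈ F
  h₂ : s₂ ∈ F
  e₁ : ∃ o : ℤ, |o| ≤ c ∧ x * B.q b₁ = s₁ * B.q a ^ o
  e₂ : ∃ o : ℤ, |o| ≤ c + j ∧ x * B.q a ^ j * B.q b₂ = s₂ * B.q a ^ o

/-- A bound for the heights of all windows (at most eight types of rungs on `σ` strands). -/
def lam (σ k c : ℕ) : ℕ := 1000 * (σ * k * σ ^ σ + 10) * (hgt σ (c + k) + 4 * k + 4)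

/-- FLIP: flat windows exist, and for every prime there are two versions of a flat window of one of the paths with
different volumes. The start levels `t₀` depend on the path only. -/
def FlipS : Prop :=
  ∀ (Q : Type) [Group Q] [DecidableEq Q] (B : Lb.{0, 0} Q) (a : B.L) (D : Subgroup Q) (z : Q) (k : ℕ), Hyp B a D z k →
    ∀ (c W : ℕ) (d : Q → Bool) (ι : Type) (x : ι → Q) (b₁ b₂ : ι → B.L) (j : ι → ℕ) (F : ι → Finset Q),
      Ctx B a D k c W d x b₁ b₂ j F → (∀ i, lam (F i).card k c ≤ W) →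
      ∃ t₀ : ι → ℕ, (∀ i, t₀ i ≤ lam (F i).card k c) ∧
      (∀ i (s₁ s₂ : Q), Leaves a (F i) (x i) (b₁ i) (b₂ i) (j i) c s₁ s₂ →
        ∃ (X : TW B) (n : ℕ), n ≤ lam (F i).card k c ∧ FWin a k (F i) (t₀ i) (x i) s₁ s₂ X n) ∧
      ∀ (p : ℕ) (_ : Fact p.Prime) (V : Vd B (ZMod p)), 4 * k < p → V.chi z = 1 → (∃ s, V.kap a s ≠ 0) →
        ∃ i : ι, ∀ s₁ s₂ : Q, Leaves a (F i) (x i) (b₁ i) (b₂ i) (j i) c s₁ s₂ →
          ∃ (X X' : TW B) (n : ℕ), n ≤ lam (F i).card k c ∧ FWin a k (F i) (t₀ i) (x i) s₁ s₂ X n ∧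
            Ver a X X' n (s₂ * B.q a ^ t₀ i) ∧ dvol V d X X' ≠ 0

/-! ### Assembly -/

/-- CTX: the tree of the lines of `a`, cut into paths of length two, and the frontiers. -/
def CtxS : Prop :=
  ∀ (Q : Type) [Group Q] (B : Lb.{0, 0} Q) (a : B.L) (D : Subgroup Q) (z : Q) (k : ℕ), Hyp B a D z k →
    Subgroup.zpowers (B.q a) ≠ ⊤ →
    ∀ (c W : ℕ), Sink B a D W → Sep B a D c W → Lev B a D W → 4 * (c + k) ≤ W →
      ∃ (d : Q → Bool) (N : ℕ) (x : Fin N → Q) (b₁ b₂ : Fin N → B.L) (j : Fin N → ℕ) (F : Fin N → Finset Q)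
        (rk : Fin N → ℕ), Ctx B a D k c W d x b₁ b₂ j F ∧ 0 < N ∧
        TreeL (fun y : Q => (y : Q ⧸ Subgroup.zpowers (B.q a))) x (fun i => x i * B.q (b₁ i))
          (fun i => x i * B.q a ^ j i * B.q (b₂ i)) rk

/-- NEAR: a window can meet translates of few others only. -/
def NearS : Prop :=
  ∀ (Q : Type) [Group Q] (B : Lb.{0, 0} Q) (a : B.L) (D : Subgroup Q) (z : Q) (k : ℕ), Hyp B a D z k →
    ∀ (c W : ℕ) (d : Q → Bool) (N : ℕ) (x : Fin N → Q) (b₁ b₂ : Fin N → B.L) (j : Fin N → ℕ)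
      (F : Fin N → Finset Q) (rk : Fin N → ℕ), Ctx B a D k c W d x b₁ b₂ j F →
      TreeL (fun y : Q => (y : Q ⧸ Subgroup.zpowers (B.q a))) x (fun i => x i * B.q (b₁ i))
          (fun i => x i * B.q a ^ j i * B.q (b₂ i)) rk →
      ∀ i, ∃ s : Finset (Fin N), s.card ≤ (Nat.card B.L + 2) ^ 10 * k ∧ ∀ i', i' ∉ s → ∀ y ∈ F i, ∀ y' ∈ F i',
        ∀ l l' : ℤ, y * B.q a ^ l ≠ y' * B.q a ^ l'

/-- The order that we need (`ρ` labels, `r` primes). -/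
def needW (ρ r k c : ℕ) : ℕ := 100 * (r + 2) ^ 2 * 2 ^ r * (lam ((ρ + 2) ^ 4 * k) k c + 4 * k)

/-- HEART. -/
def HeartS : Prop :=
  ∀ (Q : Type) [Group Q] [Fintype Q] (B : Lb.{0, 0} Q) (a : B.L) (D : Subgroup Q) (z : Q) (k : ℕ), Hyp B a D z k →
    Subgroup.zpowers (B.q a) ≠ ⊤ →
    ∀ (c W : ℕ), Sink B a D W → Sep B a D c W → Lev B a D W →
      ∀ (m : ℕ) (V : Vd B (ZMod m)), Odd m → V.chi z = 1 → (∀ p ∈ m.primeFactors, 4 * k < p) →
        (∀ p, ∀ hp : p ∈ m.primeFactors, ∃ s, (V.map (red (Nat.dvd_of_mem_primeFactors hp))).kap a s ≠ 0) →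
        needW (Nat.card B.L) m.primeFactors.card k c ≤ W →
        (Nat.card B.L + 2) ^ 20 * k ^ 10 * W ^ 2 < orderOf (B.q a ^ k) →
        ∃ T : Tour B, IsUnit (V.tvol T)

/-- SCALE: the choice of `a` and of the scale. -/
def ScaleS : Prop :=
  ∃ c₀ : ℕ, ∀ (Q : Type) [Group Q] [Finite Q] (B : Lb.{0, 0} Q) (k r P : ℕ), Finite B.L → 0 < k →
    Subgroup.closure (Set.range B.q) = ⊤ → P.Prime → ¬ P ∣ k → P ∣ Nat.card (Subgroup.center Q) →
    ¬ P ^ 2 ∣ Nat.card Q → 2 ^ ((k + Nat.card B.L + r + 1) ^ c₀) ≤ P →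
    ∃ a : B.L, P ∣ orderOf (B.q a) ∧ ∀ D : Subgroup Q, Nat.card D ∣ k → D.Normal →
      ∃ c W : ℕ, Sink B a D W ∧ Sep B a D c W ∧ Lev B a D W ∧
        needW (Nat.card B.L) r k c ≤ W ∧ (Nat.card B.L + 2) ^ 20 * k ^ 10 * W ^ 2 < P

/-! ### Groups -/

/-- The structure of the groups: `N` cyclic normal, `C ≤ N` normal, `N/C` central in `G/C`. -/
structure GN {G : Type*} [Group G] (N C : Subgroup G) (k P : ℕ) : Prop where
  Nn : N.Normal
  Nc : IsCyclic N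
  CN : C ≤ N
  Cn : C.Normal
  cen : ∀ n ∈ N, ∀ g : G, n * g * n⁻¹ * g⁻¹ ∈ C
  idx : N.index = k
  cop : (Nat.card N).Coprime k
  Csq : Squarefree (Nat.card C)
  Ccop : (Nat.card C).Coprime C.index
  /-- no element of `C` is central -/
  ncen : ∀ c ∈ C, (∀ g : G, c * g = g * c) → c = 1
  prime : P.Prime
  dvd : P ∣ Nat.card N
  ndvd : ¬ P ∣ Nat.card C
  sq : ¬ P ^ 2 ∣ Nat.card N
  big : ∀ p ∈ (Nat.card C).primeFactors, 4 * k < p ∧ ¬ P ∣ p - 1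

/-- The normal closure of the commutators of `a`. -/
def Ecl {G : Type*} [Group G] (a : G) : Subgroup G := Subgroup.normalClosure {x | ∃ g, x = a * g * a⁻¹ * g⁻¹}

/-- KAP (`s`, `z`, `chi`, `ν` come from HDATA). -/
def KapS : Prop :=
  ∀ (G : Type) [Group G] [Finite G] (C : Subgroup G) (_ : C.Normal) (A : Set G) (a : G)
    (s : G ⧸ C →* G) (z : G) (chi : G ⧸ C →* ZMod (Nat.card C)) (ν : G → ZMod (Nat.card C)),
    (∀ q, QuotientGroup.mk' C (s q) = q) → Subgroup.zpowers z = C → orderOf z = Nat.card C →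
    (∀ q, s q * z * (s q)⁻¹ = z ^ (chi q).val) → (∀ g, g = z ^ (ν g).val * s (QuotientGroup.mk' C g)) →
    Subgroup.closure A = ⊤ → (∀ c ∈ C, (∀ g : G, c * g = g * c) → c = 1) → C ≤ Ecl a →
    ∀ p, ∀ hp : p ∈ (Nat.card C).primeFactors, ∃ t ∈ A,
      red (Nat.dvd_of_mem_primeFactors hp) ((chi (QuotientGroup.mk' C a) - 1) * ν t -
        (chi (QuotientGroup.mk' C t) - 1) * ν a) ≠ 0

/-- DSTR: the quotient by `C₁ = C ⊓ E` (`Q = G / C₁`). -/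
def DstrS : Prop :=
  ∀ (G : Type) [Group G] [Finite G] (N C : Subgroup G) (k P : ℕ), GN N C k P → ∀ (a : G) (C₁ : Subgroup G)
    (_ : C₁.Normal), C₁ = C ⊓ Ecl a →
    ∃ (D : Subgroup (G ⧸ C₁)) (z : G ⧸ C₁) (u : G), D.Normal ∧ Nat.card D ∣ k ∧ (∀ x, z * x = x * z) ∧
      z⁻¹ * QuotientGroup.mk' C₁ a ∈ D ∧ u ∈ N ∧ QuotientGroup.mk' C₁ u = z ∧
      P ∣ Nat.card (Subgroup.center (G ⧸ C₁))

/-- GNQ: quotients. -/
def GnqS : Prop :=
  ∀ (G : Type) [Group G] [Finite G] (N C : Subgroup G) (k P : ℕ), GN N C k P → ∀ g ∈ C,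
    ∃ _ : (Subgroup.zpowers g).Normal, GN (N.map (QuotientGroup.mk' (Subgroup.zpowers g)))
      (C.map (QuotientGroup.mk' (Subgroup.zpowers g))) k P

/-- STR2: the structural theorem (uses HEART, SCALE, HDATA, FACTOR; the case of a cyclic quotient is `Main2S`). -/
def Str2S : Prop :=
  ∃ c₀ : ℕ, ∀ (G : Type) [Group G] [Finite G] (N C : Subgroup G) (k P : ℕ) (A : Set G), GN N C k P →
    Odd (Nat.card G) → (∀ x ∈ A, x⁻¹ ∈ A) → Subgroup.closure A = ⊤ → (∀ g ∈ A, g ∈ C → g = 1) →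
    2 ^ ((k + Nat.card A + (Nat.card G).primeFactorsList.length) ^ c₀) ≤ P → Lst A

/-- MAIN3: induction on the order (LOOP removes the labels in `C`, SMALLGEN2 makes `A` small). -/
def Main3S : Prop :=
  ∃ c₀ : ℕ, ∀ (G : Type) [Group G] [Finite G] (N C : Subgroup G) (k P : ℕ) (A : Set G), GN N C k P →
    Odd (Nat.card G) → A.Nonempty → (∀ x ∈ A, x⁻¹ ∈ A) → Subgroup.closure A = ⊤ →
    2 ^ ((k + (Nat.card G).primeFactorsList.length) ^ c₀) ≤ P → Lst A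

/-- GNS: the groups of nice order have this structure (from `H41.str`). -/
def GNS : Prop :=
  ∀ (G : Type) [Group G] [Finite G] (k m P : ℕ), CutD (k * m) k m → Nat.card G = k * m → P ∈ m.primeFactors →
    (∀ q ∈ (k * m).primeFactors, ¬ q ∣ P - 1) → ∃ N C : Subgroup G, GN N C k P

end Pool.Agent.Lib.MP_688fd0_co.SQ2
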