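import Pool.Agent.Lib.MP_688fd0_co.SQ2.TW
import Pool.Agent.Lib.MP_688fd0_co.SQ2.V.Defs

/-!
WORDS: the words of the hole puzzle (`V/Defs.lean`) are through windows.
-/

set_option autoImplicit false

namespace Pool.Agent.Lib.MP_688fd0_co.SQ2

open Pool.Agent.Lib.MP_688fd0_co.OSF
open V (Puz)

universe u v w

section vol

variable {Q : Type u} [Group Q] {B : Lb.{u, v} Q} {F : Type w} [CommRing F] (V : Vd B F)

theorem vol_append (x : Q) (l l' : List B.L) : V.vol x (l ++ l') = V.vol x l + V.vol (B.fin x l) l' := by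
  induction l generalizing x with
  | nil => show V.vol x l' = 0 + V.vol x l'; rw [zero_add]
  | cons g l ih =>
    show V.chi x * V.n g + V.vol (x * B.q g) (l ++ l') = V.chi x * V.n g + V.vol (x * B.q g) l + _
    rw [ih, add_assoc]; rfl

theorem vol_rev (x : Q) (l : List B.L) : V.vol (B.fin x l) (B.rev l) = - V.vol x l := by
  induction l generalizing x with
  | nil => show (0 : F) = -0; rw [neg_zero]
  | cons g l ih =>
    rw [rev_cons, vol_append]
    show V.vol (B.fin (x * B.q g) l) (B.rev l) + V.vol (B.fin (B.fin (x * B.q g) l) (B.rev l)) [B.inv g] =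
      -(V.chi x * V.n g + V.vol (x * B.q g) l)
    rw [ih, fin_rev]
    show -V.vol (x * B.q g) l + (V.chi (x * B.q g) * V.n (B.inv g) + 0) = _
    rw [V.n_inv, map_mul, add_zero, mul_neg]
    have h : V.chi x * V.chi (B.q g) * (V.chi (B.q g)⁻¹ * V.n g) = V.chi x * V.n g := by
      have h1 : V.chi (B.q g) * V.chi (B.q g)⁻¹ = 1 := by rw [← map_mul, mul_inv_cancel, map_one]
      linear_combination V.chi x * V.n g * h1
    rw [h]; ring

theorem vol_tr (y x : Q) (l : List B.L) : V.vol (y * x) l = V.chi y * V.vol x l := by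
  induction l generalizing x with
  | nil => show (0 : F) = V.chi y * 0; rw [mul_zero]
  | cons g l ih =>
    show V.chi (y * x) * V.n g + V.vol (y * x * B.q g) l = V.chi y * (V.chi x * V.n g + V.vol (x * B.q g) l)
    rw [mul_assoc y, ih, map_mul]; ring

theorem vol_zero (a : B.L) (ha : V.n a = 0) (x : Q) (k : ℕ) : V.vol x (List.replicate k a) = 0 := by
  induction k generalizing x with
  | zero => rfl
  | succ k ih =>
    rw [List.replicate_succ]
    show V.chi x * V.n a + V.vol (x * B.q a) (List.replicate k a) = 0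
    rw [ih, ha, mul_zero, add_zero]

end vol

/-- A realisation of a puzzle: the strand `s` at level `t` is the vertex `g s * a ^ t`; the gadget of the rung `r` is
available at the levels `t` with `t % e = lev r`, its height is `H r`. -/
structure Real {S R : Type} [Fintype S] [DecidableEq S] (P : Puz S R) {Q : Type u} [Group Q] [DecidableEq Q]
    (B : Lb.{u, v} Q) (a : B.L) where
  g : S → Q
  inj : Function.Injective g
  e : ℕ
  he : 0 < e
  lev : R → ℕ
  lev_lt : ∀ r, lev r < e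
  H : R → ℕ
  gad : R → ℕ → TW B
  L₀ : ∀ r t, t % e = lev r → (gad r t).L₀ = Finset.univ.map ⟨fun s => g s * B.q a ^ t, fun _ _ h => inj (mul_right_cancel h)⟩
  L₁ : ∀ r t, t % e = lev r →
    (gad r t).L₁ = Finset.univ.map ⟨fun s => g s * B.q a ^ (t + H r), fun _ _ h => inj (mul_right_cancel h)⟩
  u₀ : ∀ r t, t % e = lev r → (gad r t).u₀ = g (P.x r) * B.q a ^ t
  u₁ : ∀ r t, t % e = lev r → (gad r t).u₁ = g (P.y r) * B.q a ^ t
  w₀ : ∀ r t, t % e = lev r → (gad r t).w₀ = g (P.x (P.tau r)) * B.q a ^ (t + H r)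
  w₁ : ∀ r t, t % e = lev r → (gad r t).w₁ = g (P.y (P.tau r)) * B.q a ^ (t + H r)
  f : ∀ r t, t % e = lev r → ∀ s, ¬ P.On r s →
    (gad r t).f (g s * B.q a ^ t) = g (P.T r s) * B.q a ^ (t + H r)
  reg : ∀ r t, t % e = lev r → (gad r t).R = ∑ i ∈ Finset.Ico t (t + H r),
    (Finset.univ.map ⟨fun s => g s * B.q a ^ i, fun _ _ h => inj (mul_right_cancel h)⟩ : Finset Q).val

namespace Real

variable {S R : Type} [Fintype S] [DecidableEq S] {P : Puz S R} {Q : Type u} [Group Q] [DecidableEq Q]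
  {B : Lb.{u, v} Q} {a : B.L} (Z : Real P B a)

/-- The strand `s` at level `t`. -/
def vt (s : S) (t : ℕ) : Q := Z.g s * B.q a ^ t

/-- The frontier at level `t`. -/
def Fr (t : ℕ) : Finset Q := Finset.univ.map ⟨fun s => Z.g s * B.q a ^ t, fun _ _ h => Z.inj (mul_right_cancel h)⟩

theorem vt_inj {s s' : S} {t : ℕ} (h : Z.vt s t = Z.vt s' t) : s = s' := Z.inj (mul_right_cancel h)

theorem mem_Fr {t : ℕ} {x : Q} : x ∈ Z.Fr t ↔ ∃ s, Z.vt s t = x := by
  unfold Fr
  rw [Finset.mem_map]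
  constructor
  · rintro ⟨s, _, h⟩; exact ⟨s, h⟩
  · rintro ⟨s, h⟩; exact ⟨s, Finset.mem_univ _, h⟩

theorem vt_mem (s : S) (t : ℕ) : Z.vt s t ∈ Z.Fr t := Z.mem_Fr.2 ⟨s, rfl⟩

theorem vt_add (s : S) (t k : ℕ) : Z.vt s (t + k) = Z.vt s t * B.q a ^ k := by
  unfold vt; rw [pow_add, mul_assoc]

theorem rt_Fr (t k : ℕ) : rt (Z.Fr t) (B.q a ^ k) = Z.Fr (t + k) := by
  ext x
  rw [mem_rt, mem_Fr, mem_Fr]
  constructor
  · rintro ⟨s, h⟩; exact ⟨s, by rw [vt_add, h, inv_mul_cancel_right]⟩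
  · rintro ⟨s, h⟩; exact ⟨s, by rw [← h, vt_add, mul_inv_cancel_right]⟩

/-- The window `X` ends at the frontier `t` with the cap `r`. -/
structure Ends (X : TW B) (t : ℕ) (r : R) : Prop where
  L₁ : X.L₁ = Z.Fr t
  w₀ : X.w₀ = Z.vt (P.x r) t
  w₁ : X.w₁ = Z.vt (P.y r) t

variable {Z}

theorem Ends.ext {X : TW B} {t : ℕ} {r : R} (h : Z.Ends X t r) (k : ℕ) : Z.Ends (X.extn a k) (t + k) r := by
  induction k with
  | zero => exact h
  | succ k ih =>
    have hk := Z.rt_Fr (t + k) 1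
    rw [pow_one] at hk
    refine ⟨?_, ?_, ?_⟩
    · show rt (X.extn a k).L₁ (B.q a) = _
      rw [ih.L₁, hk]; rfl
    · show (X.extn a k).w₀ * B.q a = _
      rw [ih.w₀, show t + (k + 1) = t + k + 1 by omega, Z.vt_add _ (t + k) 1, pow_one]
    · show (X.extn a k).w₁ * B.q a = _
      rw [ih.w₁, show t + (k + 1) = t + k + 1 by omega, Z.vt_add _ (t + k) 1, pow_one]

omit [Fintype S] [DecidableEq S] in
theorem extn_data (X : TW B) (k : ℕ) :
    (X.extn a k).L₀ = X.L₀ ∧ (X.extn a k).u₀ = X.u₀ ∧ (X.extn a k).u₁ = X.u₁ ∧ (X.extn a k).cup = X.cup ∧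
    (∀ x, (X.extn a k).f x = X.f x * B.q a ^ k) ∧
    (∀ x, (X.extn a k).path x = X.path x ++ List.replicate k a) := by
  induction k with
  | zero => exact ⟨rfl, rfl, rfl, rfl, fun x => by rw [pow_zero, mul_one]; rfl, fun x => by simp [TW.extn]⟩
  | succ k ih =>
    obtain ⟨h1, h2, h3, h4, h5, h6⟩ := ih
    refine ⟨h1, h2, h3, h4, fun x => ?_, fun x => ?_⟩
    · show (X.extn a k).f x * B.q a = _
      rw [h5, pow_succ, mul_assoc]
    · show (X.extn a k).path x ++ [a] = _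
      rw [h6, List.append_assoc, List.replicate_succ']

theorem Ends.ext_R {X : TW B} {t : ℕ} {r : R} (h : Z.Ends X t r) (k : ℕ) :
    (X.extn a k).R = X.R + ∑ i ∈ Finset.Ico t (t + k), (Z.Fr i).val := by
  induction k with
  | zero => rw [add_zero, Finset.Ico_self, Finset.sum_empty, add_zero]; rfl
  | succ k ih =>
    show ((X.extn a k).ext a).R = _
    rw [TW.ext_R, ih, (h.ext k).L₁, show t + (k + 1) = t + k + 1 by omega,
      Finset.sum_Ico_succ_top (by omega), add_assoc]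

omit [Fintype S] [DecidableEq S] in
/-- The volume of the extended cap. -/
theorem extn_cap {F : Type w} [CommRing F] (V : Vd B F) (X : TW B) (k : ℕ) :
    V.vol (X.extn a k).w₀ (X.extn a k).cap =
      V.vol X.w₀ X.cap - V.vol X.w₀ (List.replicate k a) + V.vol X.w₁ (List.replicate k a) := by
  have hw : ∀ k, (X.extn a k).w₀ = X.w₀ * B.q a ^ k ∧ (X.extn a k).w₁ = X.w₁ * B.q a ^ k := by
    intro k
    induction k with
    | zero => exact ⟨by rw [pow_zero, mul_one]; rfl, by rw [pow_zero, mul_one]; rfl⟩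
    | succ k ih =>
      constructor
      · show (X.extn a k).w₀ * B.q a = _
        rw [ih.1, pow_succ, mul_assoc]
      · show (X.extn a k).w₁ * B.q a = _
        rw [ih.2, pow_succ, mul_assoc]
  have hfin : ∀ (x : Q) (k : ℕ), B.fin x (List.replicate k a) = x * B.q a ^ k := by
    intro x k
    induction k generalizing x with
    | zero => rw [pow_zero, mul_one]; rfl
    | succ k ih =>
      rw [List.replicate_succ]
      show B.fin (x * B.q a) (List.replicate k a) = _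
      rw [ih, pow_succ', mul_assoc]
  induction k with
  | zero => show V.vol X.w₀ X.cap = V.vol X.w₀ X.cap - 0 + 0; ring
  | succ k ih =>
    have e1 : (X.extn a (k + 1)).cap = B.inv a :: ((X.extn a k).cap ++ [a]) := rfl
    have e2 : (X.extn a (k + 1)).w₀ = (X.extn a k).w₀ * B.q a := rfl
    rw [e1, e2]
    show V.chi ((X.extn a k).w₀ * B.q a) * V.n (B.inv a) +
      V.vol ((X.extn a k).w₀ * B.q a * B.q (B.inv a)) ((X.extn a k).cap ++ [a]) = _
    rw [B.q_inv, mul_inv_cancel_right, vol_append, (X.extn a k).cap_fin, ih, List.replicate_succ',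
      vol_append, vol_append, hfin, hfin, (hw k).1, (hw k).2]
    show V.chi (X.w₀ * B.q a ^ k * B.q a) * V.n (B.inv a) + (_ + (V.chi (X.w₁ * B.q a ^ k) * V.n a + 0)) =
      _ - (_ + (V.chi (X.w₀ * B.q a ^ k) * V.n a + 0)) + (_ + (V.chi (X.w₁ * B.q a ^ k) * V.n a + 0))
    rw [V.n_inv, map_mul V.chi (X.w₀ * B.q a ^ k)]
    have h1 : V.chi (B.q a) * V.chi (B.q a)⁻¹ = 1 := by rw [← map_mul, mul_inv_cancel, map_one]
    linear_combination (-(V.chi (X.w₀ * B.q a ^ k) * V.n a)) * h1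

/-- One step: wait until level `t`, jump, gadget. -/
theorem step {X : TW B} {t₀ : ℕ} {r : R} (hX : Z.Ends X t₀ r) {r' : R} {v : S} (hadj : P.Adj r r' v) {t : ℕ}
    (ht₀ : t₀ ≤ t) (ht : t % Z.e = Z.lev r') :
    ∃ X' : TW B, X'.L₀ = X.L₀ ∧ X'.u₀ = X.u₀ ∧ X'.u₁ = X.u₁ ∧ X'.cup = X.cup ∧ X'.cap = (Z.gad r' t).cap ∧
      Z.Ends X' (t + Z.H r') (P.tau r') ∧
      X'.R = X.R + ∑ i ∈ Finset.Ico t₀ (t + Z.H r'), (Z.Fr i).val ∧
      (∀ x s, ¬ P.On r s → X.f x = Z.vt s t₀ → X'.f x = Z.vt (P.T r' (P.J r r' v s)) (t + Z.H r')) ∧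
      ∀ {F : Type w} [CommRing F] (V : Vd B F),
        (∀ x ∈ X.tok₀, ∀ s, ¬ P.On r s → X.f x = Z.vt s t₀ → V.vol x (X'.path x) = V.vol x (X.path x) +
          V.vol (Z.vt s t₀) (List.replicate (t - t₀) a) +
          (if s = P.oth r' v then
            (if v = P.x r' then - V.vol (Z.vt (P.x r') t) (Z.gad r' t).cup
              else V.vol (Z.vt (P.x r') t) (Z.gad r' t).cup) +
            (if v = P.x r then V.vol X.w₀ X.cap - V.vol (Z.vt (P.x r) t₀) (List.replicate (t - t₀) a) +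
              V.vol (Z.vt (P.y r) t₀) (List.replicate (t - t₀) a)
              else -(V.vol X.w₀ X.cap - V.vol (Z.vt (P.x r) t₀) (List.replicate (t - t₀) a) +
              V.vol (Z.vt (P.y r) t₀) (List.replicate (t - t₀) a))) else 0) +
          V.vol (Z.vt (P.J r r' v s) t) ((Z.gad r' t).path (Z.vt (P.J r r' v s) t))) ∧
        V.vol X'.w₀ X'.cap = V.vol (Z.gad r' t).w₀ (Z.gad r' t).cap := by
  obtain ⟨k, rfl⟩ : ∃ k, t = t₀ + k := ⟨t - t₀, by omega⟩
  have hk : t₀ + k - t₀ = k := by omega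
  rw [hk]
  set t := t₀ + k with ht'
  -- the extended window
  set X₁ := X.extn a k with hX₁
  have hE : Z.Ends X₁ t r := hX.ext k
  obtain ⟨d1, d2, d3, d4, d5, d6⟩ := extn_data (a := a) X k
  set Y := Z.gad r' t with hY
  have hYL₀ : Y.L₀ = Z.Fr t := Z.L₀ r' t ht
  have hYL₁ : Y.L₁ = Z.Fr (t + Z.H r') := Z.L₁ r' t ht
  have hYu₀ : Y.u₀ = Z.vt (P.x r') t := Z.u₀ r' t ht
  have hYu₁ : Y.u₁ = Z.vt (P.y r') t := Z.u₁ r' t ht
  have hYw₀ : Y.w₀ = Z.vt (P.x (P.tau r')) (t + Z.H r') := Z.w₀ r' t ht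
  have hYw₁ : Y.w₁ = Z.vt (P.y (P.tau r')) (t + Z.H r') := Z.w₁ r' t ht
  obtain ⟨hon, hon', hne⟩ := hadj
  -- the oriented windows
  obtain ⟨X₂, x1, x2, x3, x4, x5, x6, x7, x8, x9, x10, x11⟩ : ∃ X₂ : TW B, X₂.L₀ = X.L₀ ∧ X₂.L₁ = Z.Fr t ∧
      X₂.u₀ = X.u₀ ∧ X₂.u₁ = X.u₁ ∧ X₂.cup = X.cup ∧ X₂.w₀ = Z.vt v t ∧ X₂.w₁ = Z.vt (P.oth r v) t ∧
      X₂.R = X₁.R ∧ (∀ x, X₂.f x = X₁.f x) ∧ (∀ x, X₂.path x = X₁.path x) ∧
      (∀ {F : Type w} [CommRing F] (V : Vd B F), V.vol X₂.w₀ X₂.cap =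
        if v = P.x r then V.vol X₁.w₀ X₁.cap else - V.vol X₁.w₀ X₁.cap) := by
    by_cases h : v = P.x r
    · refine ⟨X₁, d1, hE.L₁, d2, d3, d4, by rw [hE.w₀, h], ?_, rfl, fun _ => rfl, fun _ => rfl, ?_⟩
      · rw [hE.w₁]; unfold Puz.oth; rw [if_pos h]
      · intro F _ V; rw [if_pos h]
    · have h2 : v = P.y r := by rcases hon with h1 | h1; exact absurd h1 h; exact h1
      refine ⟨X₁.flipCap, d1, hE.L₁, d2, d3, d4, ?_, ?_, TW.flipCap_R _, fun _ => rfl, fun _ => rfl, ?_⟩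
      · show X₁.w₁ = _; rw [hE.w₁, h2]
      · show X₁.w₀ = _; rw [hE.w₀]; unfold Puz.oth; rw [if_neg h]
      · intro F _ V
        rw [if_neg h]
        show V.vol X₁.w₁ (B.rev X₁.cap) = _
        conv_lhs => rw [← X₁.cap_fin]
        exact vol_rev V _ _
  obtain ⟨Y₂, y1, y2, y3, y4, y5, y6, y7, y8, y9, y10, y11⟩ : ∃ Y₂ : TW B, Y₂.L₀ = Z.Fr t ∧ Y₂.L₁ = Y.L₁ ∧
      Y₂.w₀ = Y.w₀ ∧ Y₂.w₁ = Y.w₁ ∧ Y₂.cap = Y.cap ∧ Y₂.u₀ = Z.vt (P.oth r' v) t ∧ Y₂.u₁ = Z.vt v t ∧
      Y₂.R = Y.R ∧ (∀ x, Y₂.f x = Y.f x) ∧ (∀ x, Y₂.path x = Y.path x) ∧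
      (∀ {F : Type w} [CommRing F] (V : Vd B F), V.vol Y₂.u₀ Y₂.cup =
        if v = P.x r' then - V.vol (Z.vt (P.x r') t) Y.cup else V.vol (Z.vt (P.x r') t) Y.cup) := by
    by_cases h : v = P.x r'
    · refine ⟨Y.flipCup, hYL₀, rfl, rfl, rfl, rfl, ?_, ?_, TW.flipCup_R _, fun _ => rfl, fun _ => rfl, ?_⟩
      · show Y.u₁ = _; rw [hYu₁]; unfold Puz.oth; rw [if_pos h]
      · show Y.u₀ = _; rw [hYu₀, h]
      · intro F _ V
        rw [if_pos h]
        show V.vol Y.u₁ (B.rev Y.cup) = _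
        conv_lhs => rw [← Y.cup_fin]
        rw [vol_rev V _ _, hYu₀]
    · have h2 : v = P.y r' := by rcases hon' with h1 | h1; exact absurd h1 h; exact h1
      refine ⟨Y, hYL₀, rfl, rfl, rfl, rfl, ?_, ?_, rfl, fun _ => rfl, fun _ => rfl, ?_⟩
      · rw [hYu₀]; unfold Puz.oth; rw [if_neg h]
      · rw [hYu₁, h2]
      · intro F _ V; rw [if_neg h, hYu₀]
  have c1 : X₂.L₁ = Y₂.L₀ := by rw [x2, y1]
  have c2 : X₂.w₀ = Y₂.u₁ := by rw [x6, y7]
  have c3 : X₂.w₁ ≠ Y₂.u₀ := by rw [x7, y6]; exact fun h => hne (Z.vt_inj h)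
  have hpos : ∀ x s, ¬ P.On r s → X.f x = Z.vt s t₀ →
      TW.jump X₂ Y₂ (X₂.f x) = Z.vt (P.J r r' v s) t := by
    intro x s hs hx
    have h1 : X₂.f x = Z.vt s t := by rw [x9, d5, hx, ht', Z.vt_add]
    unfold TW.jump
    rw [h1, y6, x7]
    have hs2 : s ≠ P.oth r v := by
      intro h
      apply hs
      rw [h]
      unfold Puz.oth Puz.On
      by_cases hv : v = P.x r
      · rw [if_pos hv]; exact Or.inr rfl
      · rw [if_neg hv]; exact Or.inl rfl
    by_cases h : s = P.oth r' v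
    · rw [if_pos (by rw [h])]
      unfold Puz.J
      rw [h, Equiv.swap_apply_left]
    · rw [if_neg (fun h' => h (Z.vt_inj h'))]
      unfold Puz.J
      rw [Equiv.swap_apply_of_ne_of_ne h hs2]
  refine ⟨X₂.comp Y₂ c1 c2 c3, x1, x3, x4, x5, y5, ⟨?_, ?_, ?_⟩, ?_, ?_, ?_⟩
  · show Y₂.L₁ = _; rw [y2, hYL₁]
  · show Y₂.w₀ = _; rw [y3, hYw₀]
  · show Y₂.w₁ = _; rw [y4, hYw₁]
  · rw [TW.comp_R, x8, y8, hX₁, hX.ext_R k, hY, Z.reg r' t ht, add_assoc]
    congr 1
    exact Finset.sum_Ico_consecutive _ (by omega) (by omega)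
  · intro x s hs hx
    show Y₂.f (TW.jump X₂ Y₂ (X₂.f x)) = _
    rw [hpos x s hs hx, y9]
    refine Z.f r' t ht _ ?_
    -- the new position is not an end of r'
    intro hon2
    have hs2 : s ≠ P.oth r v := by
      intro h
      apply hs
      rw [h]
      unfold Puz.oth Puz.On
      by_cases hv : v = P.x r
      · rw [if_pos hv]; exact Or.inr rfl
      · rw [if_neg hv]; exact Or.inl rfl
    have hsv : s ≠ v := fun h => hs (by rw [h]; exact hon)
    have honc : ∀ u, P.On r' u → u = v ∨ u = P.oth r' v := by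
      intro u hu
      unfold Puz.oth
      by_cases hv : v = P.x r'
      · rw [if_pos hv]
        rcases hu with hu | hu
        · left; rw [hu, hv]
        · right; exact hu
      · rw [if_neg hv]
        have h2 : v = P.y r' := by rcases hon' with h1 | h1; exact absurd h1 hv; exact h1
        rcases hu with hu | hu
        · right; exact hu
        · left; rw [hu, h2]
    have hov : P.oth r v ≠ v := by
      unfold Puz.oth
      by_cases hv : v = P.x r
      · rw [if_pos hv, hv]; exact (P.ne r).symm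
      · rw [if_neg hv]; exact fun h => hv h.symm
    by_cases h : s = P.oth r' v
    · unfold Puz.J at hon2
      rw [h, Equiv.swap_apply_left] at hon2
      rcases honc _ hon2 with h3 | h3
      · exact hov h3
      · exact hne h3
    · unfold Puz.J at hon2
      rw [Equiv.swap_apply_of_ne_of_ne h hs2] at hon2
      rcases honc _ hon2 with h3 | h3
      · exact hsv h3
      · exact h h3
  · intro F _ V
    refine ⟨?_, ?_⟩
    · intro x hx s hs hxs
      show V.vol x (X₂.path x ++ (TW.jumpl X₂ Y₂ (X₂.f x) ++ Y₂.path (TW.jump X₂ Y₂ (X₂.f x)))) = _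
      have hxm := TW.mem_tok₀.1 hx
      have hfin : B.fin x (X₂.path x) = X₂.f x := by
        refine X₂.path_fin x (x1 ▸ hxm.1) (x3 ▸ hxm.2.1) (x4 ▸ hxm.2.2)
      have h1 : X₂.f x = Z.vt s t := by rw [x9, d5, hxs, ht', Z.vt_add]
      rw [vol_append, vol_append, hfin, TW.jump_fin X₂ Y₂ c2, hpos x s hs hxs, y10, x10, d6, vol_append,
        X.path_fin x hxm.1 hxm.2.1 hxm.2.2, hxs, ← add_assoc]
      congr 1
      congr 1
      unfold TW.jumpl
      rw [h1, y6]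
      by_cases h : s = P.oth r' v
      · rw [if_pos (by rw [h]), if_pos h, vol_append]
        have e1 : V.vol (Z.vt s t) Y₂.cup = V.vol Y₂.u₀ Y₂.cup := by rw [y6, h]
        have e2 : B.fin (Z.vt s t) Y₂.cup = X₂.w₀ := by rw [c2, ← Y₂.cup_fin, y6, h]
        rw [e1, e2, y11 V, x11 V, hX₁, extn_cap (a := a) V X k, hX.w₀, hX.w₁]
      · rw [if_neg (fun h' => h (Z.vt_inj h')), if_neg h]
        rfl
    · show V.vol Y₂.w₀ Y₂.cap = _
      rw [y3, y5]

end Real

end Pool.Agent.Lib.MP_688fd0_co.SQ2
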