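import Pool.Agent.Lib.MP_688fd0_co.SQ2.IfaceW
import Pool.Agent.Lib.MP_688fd0_co.OSF.H59.RewireB

/-!
MERGE: flat windows along a tree give a tour.
-/

set_option autoImplicit false

namespace Pool.Agent.Lib.MP_688fd0_co.SQ2

open Pool.Agent.Lib.MP_688fd0_co.OSF Pool.Agent.Lib.MP_688fd0_co.OSF.H59
open Pool.Agent.MP_688fd0_co.OSF.H59 (darts Reads Single oldS newS)

universe u v w

section basic

variable {Q : Type u} [Group Q] {B : Lb.{u, v} Q}

theorem src_eq (x : Q) (l : List B.L) : Pool.Agent.MP_688fd0_co.OSF.H59.src (dd B) x l = src B x l := by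
  induction l generalizing x with
  | nil => rfl
  | cons g l ih => exact congrArg (List.cons x) (ih _)

theorem src_rep (a : B.L) (x : Q) (n : ℕ) :
    src B x (List.replicate n a) = (List.range n).map fun s => x * B.q a ^ s := by
  induction n generalizing x with
  | zero => rfl
  | succ n ih =>
    rw [List.replicate_succ, List.range_succ_eq_map, List.map_cons, List.map_map]
    show x :: src B (x * B.q a) (List.replicate n a) = _
    rw [ih, pow_zero, mul_one]
    congr 1
    apply List.map_congr_left
    intro s _
    simp only [Function.comp]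
    rw [pow_succ', mul_assoc]

theorem fin_rep (a : B.L) (x : Q) (n : ℕ) : B.fin x (List.replicate n a) = x * B.q a ^ n := by
  induction n generalizing x with
  | zero => rw [pow_zero, mul_one]; rfl
  | succ n ih =>
    rw [List.replicate_succ]
    show B.fin (x * B.q a) (List.replicate n a) = _
    rw [ih, pow_succ', mul_assoc]

theorem fin_rep_inv (a : B.L) (x : Q) (n : ℕ) :
    B.fin (x * B.q a ^ n) (List.replicate n (B.inv a)) = x := by
  rw [fin_rep, B.q_inv, inv_pow, mul_inv_cancel_right]

theorem mem_src_rep_inv (a : B.L) (x z : Q) (n : ℕ) :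
    z ∈ src B (x * B.q a ^ n) (List.replicate n (B.inv a)) ↔ ∃ s < n, z = x * B.q a ^ (s + 1) := by
  rw [src_rep, List.mem_map]
  constructor
  · rintro ⟨s, hs, rfl⟩
    rw [List.mem_range] at hs
    refine ⟨n - s - 1, by omega, ?_⟩
    rw [B.q_inv, inv_pow, mul_assoc]
    congr 1
    rw [mul_inv_eq_iff_eq_mul, ← pow_add]
    congr 1; omega
  · rintro ⟨s, hs, rfl⟩
    refine ⟨n - s - 1, List.mem_range.2 (by omega), ?_⟩
    rw [B.q_inv, inv_pow, mul_assoc]
    congr 1
    rw [mul_inv_eq_iff_eq_mul, ← pow_add]
    congr 1; omega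

theorem rev_rep (a : B.L) (n : ℕ) : B.rev (List.replicate n a) = List.replicate n (B.inv a) := by
  simp [Lb.rev]

theorem verts_rep (a : B.L) (x : Q) (n : ℕ) :
    (B.verts x (List.replicate n a) : Multiset Q) = ∑ s ∈ Finset.range (n + 1), {x * B.q a ^ s} := by
  rw [verts_eq, src_rep, fin_rep, Finset.sum_range_succ, ← Multiset.coe_add]
  congr 1
  induction n with
  | zero => rfl
  | succ n ih =>
    rw [List.range_succ, List.map_append, ← Multiset.coe_add, ih, Finset.sum_range_succ]
    rfl

theorem verts_rep_inv (a : B.L) (x : Q) (n : ℕ) :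
    (B.verts (x * B.q a ^ n) (List.replicate n (B.inv a)) : Multiset Q) =
      ∑ s ∈ Finset.range (n + 1), {x * B.q a ^ s} := by
  rw [← verts_rep, ← rev_rep]
  conv_lhs => rw [← fin_rep]
  rw [verts_rev, Multiset.coe_reverse]

theorem verts_rev' (x y : Q) (l : List B.L) (h : B.fin x l = y) :
    (B.verts y (B.rev l) : Multiset Q) = B.verts x l := by
  rw [← h, verts_rev, Multiset.coe_reverse]

end basic

section window

variable {Q : Type u} [Group Q] [DecidableEq Q] {B : Lb.{u, v} Q}

/-- The start of the strand of `x` in its direction. -/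
def sta (a : B.L) (d : Q → Bool) (n : ℕ) (x : Q) : Q := if d x then x else x * B.q a ^ n

/-- The end. -/
def exi (a : B.L) (d : Q → Bool) (n : ℕ) (x : Q) : Q := if d x then x * B.q a ^ n else x

/-- The old labels. -/
def oldW (a : B.L) (d : Q → Bool) (n : ℕ) (x : Q) : List B.L :=
  if d x then List.replicate n a else List.replicate n (B.inv a)

/-- The new labels. -/
def newW (d : Q → Bool) (X : TW B) (xs x : Q) : List B.L :=
  if d x then (if x = X.u₀ then X.cup else if x = X.u₁ then B.rev X.cup else X.path x)
  else (if x = X.u₁ then X.cap else if x = xs then B.rev X.cap else if x = X.u₀ then B.rev (X.path xs)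
    else B.rev (X.path x))

/-- The new end. -/
def newE (a : B.L) (d : Q → Bool) (X : TW B) (n : ℕ) (xs x : Q) : Q :=
  if x = X.u₀ then (if d x then X.u₁ else xs)
  else if x = X.u₁ then (if d x then X.u₀ else xs * B.q a ^ n)
  else if x = xs then (if d x then X.u₀ * B.q a ^ n else X.u₁ * B.q a ^ n)
  else exi a d n x

variable {a : B.L} {d : Q → Bool} {X : TW B} {n : ℕ} {xs : Q}

theorem fin_old (x : Q) : B.fin (sta a d n x) (oldW a d n x) = exi a d n x := by
  unfold sta oldW exi
  rcases h : d x with _ | _
  · simp only [Bool.false_eq_true, if_false]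
    exact fin_rep_inv a x n
  · simp only [if_true]
    exact fin_rep a x n

theorem verts_old (x : Q) : (B.verts (sta a d n x) (oldW a d n x) : Multiset Q) =
    ∑ s ∈ Finset.range (n + 1), {x * B.q a ^ s} := by
  unfold sta oldW
  rcases h : d x with _ | _
  · simp only [Bool.false_eq_true, if_false]
    exact verts_rep_inv a x n
  · simp only [if_true]
    exact verts_rep a x n

theorem Flat.ne₀ (hF : Flat a X n xs) : xs ≠ X.u₀ := (TW.mem_tok₀.1 hF.xs_mem).2.1
theorem Flat.ne₁ (hF : Flat a X n xs) : xs ≠ X.u₁ := (TW.mem_tok₀.1 hF.xs_mem).2.2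

theorem fin_new (hF : Flat a X n xs) (hd0 : d X.u₀ = !d X.u₁) (hd1 : d xs = !d X.u₁) {x : Q}
    (hx : x ∈ X.L₀) : B.fin (sta a d n x) (newW d X xs x) = newE a d X n xs x := by
  have n0 := hF.ne₀
  have n1 := hF.ne₁
  have hu := X.hu
  have hxs := TW.mem_tok₀.1 hF.xs_mem
  unfold sta newW newE
  by_cases h0 : x = X.u₀
  · subst h0
    rcases h : d X.u₀ with _ | _
    · simp only [Bool.false_eq_true, if_false, if_true, hu, n0.symm]
      rw [← hF.f_xs, ← X.path_fin xs hxs.1 hxs.2.1 hxs.2.2, fin_rev]
    · simp only [if_true, if_pos]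
      exact X.cup_fin
  by_cases h1 : x = X.u₁
  · subst h1
    rcases h : d X.u₁ with _ | _
    · simp only [Bool.false_eq_true, if_false, if_true, hu.symm]
      rw [← hF.w₀, X.cap_fin, hF.w₁]
    · simp only [if_true, hu.symm, if_false]
      conv_lhs => rw [← X.cup_fin]
      exact fin_rev _ _
  by_cases h2 : x = xs
  · subst h2
    rcases h : d x with _ | _
    · simp only [Bool.false_eq_true, if_false, if_true, h0, h1]
      rw [← hF.w₁]
      conv_lhs => rw [← X.cap_fin]
      rw [fin_rev, hF.w₀]
    · simp only [if_true, h0, h1, if_false]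
      rw [X.path_fin x hxs.1 hxs.2.1 hxs.2.2, hF.f_xs]
  · have hf := hF.f x (TW.mem_tok₀.2 ⟨hx, h0, h1⟩) h2
    have hp := X.path_fin x hx h0 h1
    unfold exi
    rcases h : d x with _ | _
    · simp only [Bool.false_eq_true, if_false, h0, h1, h2]
      rw [← hf, ← hp, fin_rev]
    · simp only [if_true, h0, h1, h2, if_false]
      rw [hp, hf]

/-- Sums over the bottom: the three special strands and the bystanders. -/
theorem sum_L₀ {M : Type*} [AddCommMonoid M] (hF : Flat a X n xs) (g : Q → M) :
    ∑ x ∈ X.L₀, g x = ∑ x ∈ X.tok₀.erase xs, g x + g xs + g X.u₁ + g X.u₀ := by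
  have e1 : ∑ x ∈ X.L₀, g x = ∑ x ∈ X.L₀.erase X.u₀, g x + g X.u₀ :=
    (Finset.sum_erase_add _ _ X.hu₀).symm
  have e2 : ∑ x ∈ X.L₀.erase X.u₀, g x = ∑ x ∈ X.tok₀, g x + g X.u₁ :=
    (Finset.sum_erase_add _ _ (Finset.mem_erase.2 ⟨X.hu.symm, X.hu₁⟩)).symm
  have e3 : ∑ x ∈ X.tok₀, g x = ∑ x ∈ X.tok₀.erase xs, g x + g xs :=
    (Finset.sum_erase_add _ _ hF.xs_mem).symm
  rw [e1, e2, e3]

theorem ends_eq (hF : Flat a X n xs) (hd0 : d X.u₀ = !d X.u₁) (hd1 : d xs = !d X.u₁) :
    ∑ x ∈ X.L₀, ({exi a d n x} : Multiset Q) = ∑ x ∈ X.L₀, ({newE a d X n xs x} : Multiset Q) := by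
  have n0 := hF.ne₀
  have n1 := hF.ne₁
  have hu := X.hu
  rw [sum_L₀ hF, sum_L₀ hF]
  have e1 : ∑ x ∈ X.tok₀.erase xs, ({newE a d X n xs x} : Multiset Q) =
      ∑ x ∈ X.tok₀.erase xs, ({exi a d n x} : Multiset Q) := by
    refine Finset.sum_congr rfl fun x hx => ?_
    obtain ⟨h1, h2⟩ := Finset.mem_erase.1 hx
    obtain ⟨h3, h4, h5⟩ := TW.mem_tok₀.1 h2
    unfold newE
    rw [if_neg h4, if_neg h5, if_neg h1]
  rw [e1]
  rcases h : d X.u₁ with _ | _
  · have h0 : d X.u₀ = true := by rw [hd0, h]; rfl
    have h2 : d xs = true := by rw [hd1, h]; rfl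
    unfold newE exi
    simp only [h0, h2, h, if_true, Bool.false_eq_true, if_false, n0, n1, hu.symm]
    abel
  · have h0 : d X.u₀ = false := by rw [hd0, h]; rfl
    have h2 : d xs = false := by rw [hd1, h]; rfl
    unfold newE exi
    simp only [h0, h2, h, if_true, Bool.false_eq_true, if_false, n0, n1, hu.symm]
    abel

theorem verts_new (hF : Flat a X n xs) (hd0 : d X.u₀ = !d X.u₁) (hd1 : d xs = !d X.u₁) :
    ∑ x ∈ X.L₀, (B.verts (sta a d n x) (newW d X xs x) : Multiset Q) =
      ∑ x ∈ X.L₀, (B.verts (sta a d n x) (oldW a d n x) : Multiset Q) := by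
  have n0 := hF.ne₀
  have n1 := hF.ne₁
  have hu := X.hu
  have hxs := TW.mem_tok₀.1 hF.xs_mem
  -- old
  have e0 : ∑ x ∈ X.L₀, (B.verts (sta a d n x) (oldW a d n x) : Multiset Q) = X.R + X.L₁.val := by
    have h1 : ∀ s, (rt X.L₀ (B.q a ^ s)).val = ∑ x ∈ X.L₀, ({x * B.q a ^ s} : Multiset Q) := by
      intro s
      rw [← TW.sum_singleton, rt, Finset.sum_map]
      rfl
    rw [hF.reg, hF.top, ← Finset.sum_range_succ (fun i => (rt X.L₀ (B.q a ^ i)).val)]
    simp only [h1]
    rw [Finset.sum_comm]
    exact Finset.sum_congr rfl fun x _ => verts_old x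
  -- new
  have hcap : (B.verts X.w₀ X.cap : Multiset Q) =
      {X.w₀} + ((src B X.w₀ X.cap).tail : Multiset Q) + {X.w₁} := by
    rw [verts_eq, X.cap_fin, ← Multiset.coe_add, src_ne_nil _ X.cap_ne]
    rfl
  have hrest : ∑ x ∈ X.tok₀.erase xs, (B.verts (sta a d n x) (newW d X xs x) : Multiset Q) =
      ∑ x ∈ X.tok₀.erase xs, (B.verts x (X.path x) : Multiset Q) := by
    refine Finset.sum_congr rfl fun x hx => ?_
    obtain ⟨h1, h2⟩ := Finset.mem_erase.1 hx
    obtain ⟨h3, h4, h5⟩ := TW.mem_tok₀.1 h2
    unfold newW sta
    rcases h : d x with _ | _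
    · simp only [Bool.false_eq_true, if_false, h1, h4, h5]
      exact verts_rev' _ _ _ (by rw [X.path_fin x h3 h4 h5, hF.f x h2 h1])
    · simp only [if_true, h4, h5, if_false]
  have hspec : (B.verts (sta a d n xs) (newW d X xs xs) : Multiset Q) +
      (B.verts (sta a d n X.u₁) (newW d X xs X.u₁) : Multiset Q) +
      (B.verts (sta a d n X.u₀) (newW d X xs X.u₀) : Multiset Q) =
      (B.verts xs (X.path xs) : Multiset Q) + (B.verts X.w₀ X.cap : Multiset Q) +
      (B.verts X.u₀ X.cup : Multiset Q) := by
    rcases h : d X.u₁ with _ | _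
    · have h0 : d X.u₀ = true := by rw [hd0, h]; rfl
      have h2 : d xs = true := by rw [hd1, h]; rfl
      unfold newW sta
      simp only [h0, h2, h, if_true, Bool.false_eq_true, if_false, n0, n1]
      rw [← hF.w₀]
    · have h0 : d X.u₀ = false := by rw [hd0, h]; rfl
      have h2 : d xs = false := by rw [hd1, h]; rfl
      unfold newW sta
      simp only [h0, h2, h, if_true, Bool.false_eq_true, if_false, n0.symm, n1, hu, hu.symm]
      rw [← hF.w₁, verts_rev' _ _ _ X.cap_fin, verts_rev' _ _ _ X.cup_fin, ← hF.f_xs,
        verts_rev' _ _ _ (X.path_fin xs hxs.1 hxs.2.1 hxs.2.2)]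
      abel
  have hpath : ∑ x ∈ X.tok₀, (B.verts x (X.path x) : Multiset Q) =
      ∑ x ∈ X.tok₀, (src B x (X.path x) : Multiset Q) + X.tok₁.val := by
    rw [← TW.sum_singleton X.tok₁, ← X.sum_f, ← Finset.sum_add_distrib]
    refine Finset.sum_congr rfl fun x hx => ?_
    have hx := TW.mem_tok₀.1 hx
    rw [verts_eq, X.path_fin x hx.1 hx.2.1 hx.2.2]
    rfl
  rw [e0, sum_L₀ hF, hrest, add_assoc, add_assoc, ← add_assoc (B.verts (sta a d n xs) (newW d X xs xs) : Multiset Q),
    hspec, ← add_assoc, ← add_assoc, Finset.sum_erase_add _ _ hF.xs_mem, hpath, hcap, X.L₁_val]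
  unfold TW.R
  abel

end window

/-- The multiset of a flatMap over a finite set. -/
theorem coe_flatMap {α β : Type*} (s : Finset α) (f : α → List β) :
    ((s.toList.flatMap f : List β) : Multiset β) = ∑ x ∈ s, (f x : Multiset β) := by
  have h : ∀ l : List α, ((l.flatMap f : List β) : Multiset β) = (l.map fun x => (f x : Multiset β)).sum := by
    intro l
    induction l with
    | nil => rfl
    | cons x l ih =>
      rw [List.flatMap_cons, List.map_cons, List.sum_cons, ← ih]
      rfl
  rw [h]
  exact Finset.sum_map_toList s _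

theorem coe_map_toList {α β : Type*} (s : Finset α) (f : α → β) :
    ((s.toList.map f : List β) : Multiset β) = ∑ x ∈ s, ({f x} : Multiset β) := by
  have h : ∀ l : List α, ((l.map f : List β) : Multiset β) = (l.map fun x => ({f x} : Multiset β)).sum := by
    intro l
    induction l with
    | nil => rfl
    | cons x l ih =>
      rw [List.map_cons, List.map_cons, List.sum_cons, ← ih]
      rfl
  rw [h]
  exact Finset.sum_map_toList s _

/-- MERGE -/
theorem merge : MergeS.{u, v, w} := by
  classical
  intro Q _ _ _ B a Λ ln d ι _ X n xs rk hln hln' hsurj hd hF hdir hP hT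
  set A := B.q a with hA
  have hdA : ∀ x (k : ℕ), d (x * A ^ k) = d x := by
    intro x k
    induction k with
    | zero => rw [pow_zero, mul_one]
    | succ k ih => rw [pow_succ, ← mul_assoc, hd, ih]
  have hd' : ∀ x, d (x * A⁻¹) = d x := fun x => by
    have := hd (x * A⁻¹)
    rw [inv_mul_cancel_right] at this
    exact this.symm
  let lab : Q → B.L := fun x => if d x then a else B.inv a
  have hlab1 : ∀ x, d x = true → dd B x (lab x) = x * A := fun x h => by
    simp only [dd, lab, h, if_true]; rfl
  have hlab2 : ∀ x, d x = false → dd B x (lab x) = x * A⁻¹ := fun x h => by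
    simp only [dd, lab, h, Bool.false_eq_true, if_false, B.q_inv]; rfl
  have hdf : ∀ x, d (dd B x (lab x)) = d x := by
    intro x
    rcases h : d x with _ | _
    · rw [hlab2 x h, hd', h]
    · rw [hlab1 x h, hd, h]
  have hb : Function.Bijective fun z => dd B z (lab z) := by
    rw [← Finite.injective_iff_bijective]
    intro x y hxy
    simp only at hxy
    have h1 : d x = d y := by rw [← hdf x, ← hdf y, hxy]
    rcases h : d x with _ | _
    · rw [hlab2 x h, hlab2 y (by rw [← h1, h])] at hxy
      exact mul_right_cancel hxy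
    · rw [hlab1 x h, hlab1 y (by rw [← h1, h])] at hxy
      exact mul_right_cancel hxy
  let I : Finset (ι × Q) := Finset.univ.filter fun p => p.2 ∈ (X p.1).L₀
  have hI : ∀ p, p ∈ I ↔ p.2 ∈ (X p.1).L₀ := fun p => by simp [I]
  let F : ι × Q → Q × List B.L × List B.L := fun p =>
    (sta a d (n p.1) p.2, oldW a d (n p.1) p.2, newW d (X p.1) (xs p.1) p.2)
  let S : List (Q × List B.L × List B.L) := I.toList.map F
  have hS : ∀ s ∈ S, ∃ p ∈ I, F p = s := fun s hs => by
    obtain ⟨p, hp, h⟩ := List.mem_map.1 hs
    exact ⟨p, Finset.mem_toList.1 hp, h⟩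
  have hS' : ∀ p ∈ I, F p ∈ S := fun p hp => List.mem_map_of_mem (Finset.mem_toList.2 hp)
  -- sums over I
  have hsum : ∀ g : ι → Q → Multiset Q, ∑ p ∈ I, g p.1 p.2 = ∑ i, ∑ x ∈ (X i).L₀, g i x := by
    intro g
    rw [Finset.sum_filter, ← Finset.univ_product_univ, Finset.sum_product]
    refine Finset.sum_congr rfl fun i _ => ?_
    rw [← Finset.sum_filter]
    refine Finset.sum_congr ?_ fun _ _ => rfl
    ext x; simp
  have hfinold : ∀ p ∈ I, Pool.Agent.MP_688fd0_co.OSF.H59.fin (dd B) (F p).1 (F p).2.1 =
      exi a d (n p.1) p.2 := fun p _ => by rw [fin_eq]; exact fin_old _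
  have hfinnew : ∀ p ∈ I, Pool.Agent.MP_688fd0_co.OSF.H59.fin (dd B) (F p).1 (F p).2.2 =
      newE a d (X p.1) (n p.1) (xs p.1) p.2 := fun p hp => by
    rw [fin_eq]; exact fin_new (hF p.1) (hdir p.1).1 (hdir p.1).2 ((hI p).1 hp)
  have hoS : (oldS (dd B) S : Multiset Q) = ∑ p ∈ I, (src B (F p).1 (F p).2.1 : Multiset Q) := by
    rw [oldS, List.flatMap_map, coe_flatMap]
    exact Finset.sum_congr rfl fun p _ => by rw [src_eq]
  have hnS : (newS (dd B) S : Multiset Q) = ∑ p ∈ I, (src B (F p).1 (F p).2.2 : Multiset Q) := by
    rw [newS, List.flatMap_map, coe_flatMap]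
    exact Finset.sum_congr rfl fun p _ => by rw [src_eq]
  have hmem : ∀ z, z ∈ oldS (dd B) S ↔ ∃ i, ∃ y ∈ (X i).L₀,
      (d y = true ∧ ∃ s < n i, z = y * A ^ s) ∨ (d y = false ∧ ∃ s < n i, z = y * A ^ (s + 1)) := by
    intro z
    rw [← Multiset.mem_coe, hoS, Multiset.mem_sum]
    constructor
    · rintro ⟨⟨i, y⟩, hp, hz⟩
      refine ⟨i, y, (hI _).1 hp, ?_⟩
      have hz : z ∈ src B (sta a d (n i) y) (oldW a d (n i) y) := hz
      unfold sta oldW at hz
      rcases h : d y with _ | _
      · rw [h] at hz
        simp only [Bool.false_eq_true, if_false] at hz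
        exact Or.inr ⟨rfl, (mem_src_rep_inv a y z (n i)).1 hz⟩
      · rw [h] at hz
        simp only [if_true] at hz
        rw [src_rep, List.mem_map] at hz
        obtain ⟨s, hs, rfl⟩ := hz
        exact Or.inl ⟨rfl, s, List.mem_range.1 hs, rfl⟩
    · rintro ⟨i, y, hy, h⟩
      refine ⟨(i, y), (hI _).2 hy, ?_⟩
      show z ∈ src B (sta a d (n i) y) (oldW a d (n i) y)
      unfold sta oldW
      rcases h with ⟨h, s, hs, rfl⟩ | ⟨h, s, hs, rfl⟩
      · rw [h]
        simp only [if_true]
        rw [src_rep, List.mem_map]
        exact ⟨s, List.mem_range.2 hs, rfl⟩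
      · rw [h]
        simp only [Bool.false_eq_true, if_false]
        exact (mem_src_rep_inv a y _ (n i)).2 ⟨s, hs, rfl⟩
  have hends : (S.map fun s => Pool.Agent.MP_688fd0_co.OSF.H59.fin (dd B) s.1 s.2.1).Perm
      (S.map fun s => Pool.Agent.MP_688fd0_co.OSF.H59.fin (dd B) s.1 s.2.2) := by
    rw [← Multiset.coe_eq_coe, List.map_map, List.map_map, coe_map_toList, coe_map_toList]
    have e1 : ∑ p ∈ I, ({((fun s : Q × List B.L × List B.L =>
        Pool.Agent.MP_688fd0_co.OSF.H59.fin (dd B) s.1 s.2.1) ∘ F) p} : Multiset Q) =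
        ∑ p ∈ I, ({exi a d (n p.1) p.2} : Multiset Q) :=
      Finset.sum_congr rfl fun p hp => by rw [← hfinold p hp]; rfl
    have e2 : ∑ p ∈ I, ({((fun s : Q × List B.L × List B.L =>
        Pool.Agent.MP_688fd0_co.OSF.H59.fin (dd B) s.1 s.2.2) ∘ F) p} : Multiset Q) =
        ∑ p ∈ I, ({newE a d (X p.1) (n p.1) (xs p.1) p.2} : Multiset Q) :=
      Finset.sum_congr rfl fun p hp => by rw [← hfinnew p hp]; rfl
    rw [e1, e2, hsum fun i x => {exi a d (n i) x}, hsum fun i x => {newE a d (X i) (n i) (xs i) x}]
    exact Finset.sum_congr rfl fun i _ => ends_eq (hF i) (hdir i).1 (hdir i).2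
  have hperm : (oldS (dd B) S).Perm (newS (dd B) S) := by
    rw [← Multiset.coe_eq_coe, hoS, hnS]
    have h1 : ∑ p ∈ I, (B.verts (F p).1 (F p).2.1 : Multiset Q) =
        ∑ p ∈ I, (B.verts (F p).1 (F p).2.2 : Multiset Q) := by
      rw [hsum fun i x => (B.verts (sta a d (n i) x) (oldW a d (n i) x) : Multiset Q),
        hsum fun i x => (B.verts (sta a d (n i) x) (newW d (X i) (xs i) x) : Multiset Q)]
      exact Finset.sum_congr rfl fun i _ => (verts_new (hF i) (hdir i).1 (hdir i).2).symm
    have h2 : ∑ p ∈ I, (B.verts (F p).1 (F p).2.1 : Multiset Q) =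
        ∑ p ∈ I, (src B (F p).1 (F p).2.1 : Multiset Q) + ∑ p ∈ I, ({exi a d (n p.1) p.2} : Multiset Q) := by
      rw [← Finset.sum_add_distrib]
      refine Finset.sum_congr rfl fun p hp => ?_
      rw [verts_eq, ← Multiset.coe_add]
      congr 1
      have := hfinold p hp
      rw [fin_eq] at this
      rw [this]; rfl
    have h3 : ∑ p ∈ I, (B.verts (F p).1 (F p).2.2 : Multiset Q) =
        ∑ p ∈ I, (src B (F p).1 (F p).2.2 : Multiset Q) +
        ∑ p ∈ I, ({newE a d (X p.1) (n p.1) (xs p.1) p.2} : Multiset Q) := by
      rw [← Finset.sum_add_distrib]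
      refine Finset.sum_congr rfl fun p hp => ?_
      rw [verts_eq, ← Multiset.coe_add]
      congr 1
      have := hfinnew p hp
      rw [fin_eq] at this
      rw [this]; rfl
    have h4 : ∑ p ∈ I, ({exi a d (n p.1) p.2} : Multiset Q) =
        ∑ p ∈ I, ({newE a d (X p.1) (n p.1) (xs p.1) p.2} : Multiset Q) := by
      rw [hsum fun i x => {exi a d (n i) x}, hsum fun i x => {newE a d (X i) (n i) (xs i) x}]
      exact Finset.sum_congr rfl fun i _ => ends_eq (hF i) (hdir i).1 (hdir i).2
    rw [h2, h3, h4] at h1
    exact add_right_cancel h1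
  have hnd : (oldS (dd B) S).Nodup := by
    rw [oldS, List.flatMap_map, List.nodup_flatMap]
    constructor
    · rintro ⟨i, y⟩ hp
      rw [src_eq]
      show (src B (sta a d (n i) y) (oldW a d (n i) y)).Nodup
      have hy := (hI _).1 (Finset.mem_toList.1 hp)
      have hinj : ∀ s t, s ≤ n i → t ≤ n i → y * A ^ s = y * A ^ t → s = t := fun s t hs ht h =>
        (hP.disj i i y y s t hy hy hs ht h).2.2
      unfold sta oldW
      rcases h : d y with _ | _
      · simp only [Bool.false_eq_true, if_false]
        rw [src_rep]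
        refine List.Nodup.map_on ?_ (List.nodup_range)
        intro s hs t ht hst
        rw [List.mem_range] at hs ht
        rw [B.q_inv, inv_pow, inv_pow, mul_assoc, mul_assoc] at hst
        have hst := mul_left_cancel hst
        have e1 : A ^ n i * (A ^ s)⁻¹ = A ^ (n i - s) := by
          rw [mul_inv_eq_iff_eq_mul, ← pow_add]; congr 1; omega
        have e2 : A ^ n i * (A ^ t)⁻¹ = A ^ (n i - t) := by
          rw [mul_inv_eq_iff_eq_mul, ← pow_add]; congr 1; omega
        rw [← hA, e1, e2] at hst
        have := hinj (n i - s) (n i - t) (by omega) (by omega) (by rw [hst])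
        omega
      · simp only [if_true]
        rw [src_rep]
        refine List.Nodup.map_on ?_ (List.nodup_range)
        intro s hs t ht hst
        rw [List.mem_range] at hs ht
        exact hinj s t hs.le ht.le hst
    · refine List.Nodup.pairwise_of_forall_ne (Finset.nodup_toList I) ?_
      rintro ⟨i, y⟩ hp ⟨j, z⟩ hq hne
      have hy := (hI _).1 (Finset.mem_toList.1 hp)
      have hz := (hI _).1 (Finset.mem_toList.1 hq)
      have hm : ∀ i y w, w ∈ src B (sta a d (n i) y) (oldW a d (n i) y) → ∃ s ≤ n i, w = y * A ^ s := by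
        intro i y w hw
        unfold sta oldW at hw
        rcases h : d y with _ | _
        · rw [h] at hw
          simp only [Bool.false_eq_true, if_false] at hw
          obtain ⟨s, hs, h⟩ := (mem_src_rep_inv a y w (n i)).1 hw
          exact ⟨s + 1, hs, h⟩
        · rw [h] at hw
          simp only [if_true] at hw
          rw [src_rep, List.mem_map] at hw
          obtain ⟨s, hs, rfl⟩ := hw
          exact ⟨s, (List.mem_range.1 hs).le, rfl⟩
      intro w hw1 hw2
      simp only at hw1 hw2
      rw [src_eq] at hw1 hw2
      obtain ⟨s, hs, h1⟩ := hm i y w hw1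
      obtain ⟨t, ht, h2⟩ := hm j z w hw2
      have := hP.disj i j y z s t hy hz hs ht (by rw [← h1, h2])
      exact hne (by rw [this.1, this.2.1])
  obtain ⟨lab', hsing, -, hread, -⟩ := rewireC.{_, _, 0} (d := dd B) (lab := lab) hb S (by
      intro s hs
      obtain ⟨⟨i, y⟩, hp, rfl⟩ := hS s hs
      show oldW a d (n i) y ≠ []
      have := hP.pos i
      unfold oldW
      rcases d y with _ | _ <;>
      · simp only [Bool.false_eq_true, if_false, if_true]
        intro h
        have := congrArg List.length h
        rw [List.length_replicate] at this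
        simp at this
        omega) (by
      intro s hs
      obtain ⟨⟨i, y⟩, hp, rfl⟩ := hS s hs
      show newW d (X i) (xs i) y ≠ []
      intro h0
      have hy : y ∈ (X i).L₀ := (hI _).1 hp
      have h1 := fin_new (hF i) (hdir i).1 (hdir i).2 hy
      rw [h0] at h1
      have h2 : sta a d (n i) y = newE a d (X i) (n i) (xs i) y := h1
      have hn := hP.pos i
      have hdj := hP.disj i i
      have m0 := hP.hl i
      have m1 := hP.hc i
      have m2 := hP.hm i
      unfold sta newE at h2
      have z : ∀ y z s t, y ∈ (X i).L₀ → z ∈ (X i).L₀ → s ≤ n i → t ≤ n i → (y ≠ z ∨ s ≠ t) →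
          y * A ^ s ≠ z * A ^ t := by
        intro y z s t hy hz hs ht hne he
        have := hdj y z s t hy hz hs ht he
        rcases hne with h | h
        · exact h this.2.1
        · exact h this.2.2
      have hne0 := (hF i).ne₀
      have hne1 := (hF i).ne₁
      have hu := (X i).hu
      rcases h : d y with _ | _
      · simp only [h, Bool.false_eq_true, if_false] at h2
        split_ifs at h2 with g1 g2 g3
        · have := z y (xs i) (n i) 0 hy m2 le_rfl (by omega) (Or.inr (by omega))
          rw [pow_zero, mul_one] at this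
          exact this h2
        · exact z y (xs i) (n i) (n i) hy m2 le_rfl le_rfl (Or.inl (by rw [g2]; exact hne1.symm)) h2
        · exact z y (X i).u₁ (n i) (n i) hy m1 le_rfl le_rfl (Or.inl g2) h2
        · unfold exi at h2
          rw [h] at h2
          simp only [Bool.false_eq_true, if_false] at h2
          have := z y y (n i) 0 hy hy le_rfl (by omega) (Or.inr (by omega))
          rw [pow_zero, mul_one] at this
          exact this h2
      · simp only [h, if_true] at h2
        split_ifs at h2 with g1 g2 g3
        · exact hu (by rw [← g1, h2])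
        · exact hu.symm (by rw [← g2, h2])
        · have := z y (X i).u₀ 0 (n i) hy m0 (by omega) le_rfl (Or.inl g1)
          rw [pow_zero, mul_one] at this
          exact this h2
        · unfold exi at h2
          rw [h] at h2
          simp only [if_true] at h2
          have := z y y 0 (n i) hy hy (by omega) le_rfl (Or.inr (by omega))
          rw [pow_zero, mul_one] at this
          exact this h2) (by
      intro s hs
      obtain ⟨⟨i, y⟩, hp, rfl⟩ := hS s hs
      show Reads (dd B) lab (sta a d (n i) y) (oldW a d (n i) y)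
      have h1 : ∀ (m : ℕ) (x : Q), d x = true → Reads (dd B) lab x (List.replicate m a) := by
        intro m
        induction m with
        | zero => intro x _ p hp; simp [darts] at hp
        | succ m ih =>
          intro x hx p hp
          rw [List.replicate_succ, darts] at hp
          rcases List.mem_cons.1 hp with rfl | hp
          · simp only [lab, hx, if_true]
          · exact ih _ (by show d (x * B.q a) = true; rw [hd, hx]) p hp
      have h2 : ∀ (m : ℕ) (x : Q), d x = false → Reads (dd B) lab x (List.replicate m (B.inv a)) := by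
        intro m
        induction m with
        | zero => intro x _ p hp; simp [darts] at hp
        | succ m ih =>
          intro x hx p hp
          rw [List.replicate_succ, darts] at hp
          rcases List.mem_cons.1 hp with rfl | hp
          · simp only [lab, hx, Bool.false_eq_true, if_false]
          · exact ih _ (by show d (x * B.q (B.inv a)) = false; rw [B.q_inv, hd', hx]) p hp
      unfold sta oldW
      rcases h : d y with _ | _
      · simp only [Bool.false_eq_true, if_false]
        exact h2 _ _ (by rw [← hA, hdA, h])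
      · simp only [if_true]
        exact h1 _ _ h) hends hnd hperm (by
      intro r hr hout hstr
      have hstr' : ∀ i, ∀ y ∈ (X i).L₀, r (sta a d (n i) y) (newE a d (X i) (n i) (xs i) y) := by
        intro i y hy
        have := hstr _ (hS' (i, y) ((hI _).2 hy))
        rw [hfinnew (i, y) ((hI _).2 hy)] at this
        exact this
      have hconn := conn_lines (A := A) (ln := ln) hln hln' hP hT hsurj r hr (by
        intro x hx
        rcases h : d x with _ | _
        · have h1 : x * A ∉ oldS (dd B) S := by
            rw [hmem]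
            rintro ⟨i, y, hy, ⟨h1, s, hs, h2⟩ | ⟨h1, s, hs, h2⟩⟩
            · have := hdA y s
              rw [← h2, hd, h, h1] at this
              exact Bool.noConfusion this
            · rw [pow_succ, ← mul_assoc] at h2
              exact hx i y s ⟨hy, hs, mul_right_cancel h2⟩
          have h2 := hout _ h1
          rw [hlab2 _ (by rw [hd, h]), mul_inv_cancel_right] at h2
          exact hr.symm h2
        · have h1 : x ∉ oldS (dd B) S := by
            rw [hmem]
            rintro ⟨i, y, hy, ⟨h1, s, hs, h2⟩ | ⟨h1, s, hs, h2⟩⟩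
            · exact hx i y s ⟨hy, hs, h2⟩
            · have := hdA y (s + 1)
              rw [← h2, h, h1] at this
              exact Bool.noConfusion this
          have h2 := hout _ h1
          rwa [hlab1 _ h] at h2) (by
        intro i x hx h1 h0 h2
        have := hstr' i x hx
        unfold newE sta exi at this
        rw [if_neg h0, if_neg h1, if_neg h2] at this
        rcases h : d x with _ | _
        · rw [h] at this
          simp only [Bool.false_eq_true, if_false] at this
          exact hr.symm this
        · rw [h] at this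
          simp only [if_true] at this
          exact this) (by
        intro i
        rcases h : d (X i).u₀ with _ | _
        · have h1 : d (X i).u₁ = true := by have := (hdir i).1; rw [h] at this; simpa using this.symm
          have := hstr' i _ (X i).hu₁
          unfold newE sta at this
          rw [h1, if_neg (X i).hu.symm, if_pos rfl] at this
          simp only [if_true] at this
          exact hr.symm this
        · have := hstr' i _ (X i).hu₀
          unfold newE sta at this
          rw [h, if_pos rfl] at this
          simp only [if_true] at this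
          exact this) (by
        intro i
        rcases h : d (X i).u₀ with _ | _
        · have h1 : d (X i).u₁ = true := by have := (hdir i).1; rw [h] at this; simpa using this.symm
          have h2 : d (xs i) = false := by rw [(hdir i).2, h1]; rfl
          have := hstr' i _ (hP.hm i)
          unfold newE sta at this
          rw [h2, if_neg (hF i).ne₀, if_neg (hF i).ne₁, if_pos rfl] at this
          simp only [Bool.false_eq_true, if_false] at this
          exact hr.symm this
        · have h1 : d (X i).u₁ = false := by have := (hdir i).1; rw [h] at this; simpa using this.symm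
          have := hstr' i _ (X i).hu₁
          unfold newE sta at this
          rw [h1, if_neg (X i).hu.symm, if_pos rfl] at this
          simp only [Bool.false_eq_true, if_false] at this
          exact this) (by
        intro i
        rcases h : d (X i).u₀ with _ | _
        · have := hstr' i _ (X i).hu₀
          unfold newE sta at this
          rw [h, if_pos rfl] at this
          simp only [Bool.false_eq_true, if_false] at this
          exact hr.symm this
        · have h1 : d (X i).u₁ = false := by have := (hdir i).1; rw [h] at this; simpa using this.symm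
          have h2 : d (xs i) = true := by rw [(hdir i).2, h1]; rfl
          have := hstr' i _ (hP.hm i)
          unfold newE sta at this
          rw [h2, if_neg (hF i).ne₀, if_neg (hF i).ne₁, if_pos rfl] at this
          simp only [if_true] at this
          exact this)
      have hgood : ∀ x, (x ∉ oldS (dd B) S ∨ ∃ s ∈ S, x = s.1) →
          ∀ i y s, InS A (fun i => (X i).L₀) n x i y s → s = 0 := by
        rintro x (hx | ⟨s, hs, rfl⟩) i y t ⟨hy, ht, hxy⟩
        · by_contra h0
          apply hx
          rw [hmem]
          rcases h : d y with _ | _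
          · exact ⟨i, y, hy, Or.inr ⟨h, t - 1, by omega, by rw [hxy]; congr 2; omega⟩⟩
          · exact ⟨i, y, hy, Or.inl ⟨h, t, ht, hxy⟩⟩
        · obtain ⟨⟨j, z⟩, hp, rfl⟩ := hS s hs
          have hz : z ∈ (X j).L₀ := (hI _).1 hp
          have hxy : sta a d (n j) z = y * A ^ t := hxy
          unfold sta at hxy
          rcases h : d z with _ | _
          · rw [h] at hxy
            simp only [Bool.false_eq_true, if_false] at hxy
            obtain ⟨rfl, _, h3⟩ := hP.disj j i z y (n j) t hz hy le_rfl ht.le hxy
            omega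
          · rw [h] at hxy
            simp only [if_true] at hxy
            have := hP.disj j i z y 0 t hz hy (by omega) ht.le (by rw [pow_zero, mul_one]; exact hxy)
            exact this.2.2.symm
      intro x y hx hy
      exact hconn x y (hgood x hx) (hgood y hy))
  refine ⟨⟨lab', hsing⟩, ?_⟩
  have hfol : ∀ i, ∀ y ∈ (X i).L₀, Tour.Fol ⟨lab', hsing⟩ (sta a d (n i) y) (newW d (X i) (xs i) y) := by
    intro i y hy
    exact (reads_iff B ⟨lab', hsing⟩ _ _).1 (hread _ (hS' (i, y) ((hI _).2 hy)))
  intro i
  have hxs := TW.mem_tok₀.1 (hF i).xs_mem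
  refine ⟨?_, ?_, ?_⟩
  · intro x hx
    have hx' := TW.mem_tok₀.1 hx
    unfold Tour.Pass
    rcases h : d x with _ | _
    · rw [if_neg Bool.false_ne_true, (X i).path_fin x hx'.1 hx'.2.1 hx'.2.2]
      by_cases hxx : x = xs i
      · rw [hxx, (hF i).f_xs]
        have h1 : d (X i).u₀ = false := by rw [(hdir i).1, ← (hdir i).2, ← hxx, h]
        have := hfol i _ (X i).hu₀
        unfold newW sta at this
        rw [h1] at this
        simp only [Bool.false_eq_true, if_false, (X i).hu, (hF i).ne₀.symm, if_true] at this
        exact this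
      · rw [(hF i).f x hx hxx]
        have := hfol i x hx'.1
        unfold newW sta at this
        rw [h] at this
        simp only [Bool.false_eq_true, if_false, hx'.2.1, hx'.2.2, hxx] at this
        exact this
    · rw [if_pos rfl]
      have := hfol i x hx'.1
      unfold newW sta at this
      rw [h] at this
      simp only [if_true, hx'.2.1, hx'.2.2, if_false] at this
      exact this
  · unfold Tour.Pass
    rcases h : d (X i).u₀ with _ | _
    · rw [if_neg Bool.false_ne_true, (X i).cup_fin]
      have h1 : d (X i).u₁ = true := by have := (hdir i).1; rw [h] at this; simpa using this.symm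
      have := hfol i _ (X i).hu₁
      unfold newW sta at this
      rw [h1] at this
      simp only [if_true, (X i).hu.symm, if_false] at this
      exact this
    · rw [if_pos rfl]
      have := hfol i _ (X i).hu₀
      unfold newW sta at this
      rw [h] at this
      simp only [if_true] at this
      exact this
  · unfold Tour.Pass
    rcases h : d (X i).u₀ with _ | _
    · rw [if_neg Bool.false_ne_true, (X i).cap_fin, (hF i).w₁]
      have h2 : d (xs i) = false := by rw [(hdir i).2, ← (hdir i).1, h]
      have := hfol i _ (hP.hm i)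
      unfold newW sta at this
      rw [h2] at this
      simp only [Bool.false_eq_true, if_false, (hF i).ne₁, if_true] at this
      exact this
    · rw [if_pos rfl, (hF i).w₀]
      have h1 : d (X i).u₁ = false := by have := (hdir i).1; rw [h] at this; simpa using this.symm
      have := hfol i _ (X i).hu₁
      unfold newW sta at this
      rw [h1] at this
      simp only [Bool.false_eq_true, if_false, if_true] at this
      exact this

end Pool.Agent.Lib.MP_688fd0_co.SQ2
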