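import Pool.Agent.Lib.MP_688fd0_co.OSF.H59.Rewire

/-!
Directed rewiring of a permutation `x ↦ d x (lab x)`: strands are replaced by strands with the same starts, with permuted
ends and, altogether, with the same sources.
-/

set_option autoImplicit false

namespace Pool.Agent.Lib.MP_688fd0_co.SQ2

open Pool.Agent.MP_688fd0_co.OSF.H59

variable {Q L : Type*}

theorem Reads.map_last {d : Q → L → Q} {lab : Q → L} {x : Q} {w : List L} (h : Reads d lab x w) (hw : w ≠ []) :
    ∃ z ∈ src d x w, d z (lab z) = fin d x w := by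
  obtain ⟨m, hm⟩ : ∃ m, w.length = m + 1 := ⟨w.length - 1, by
    have := List.length_pos_of_ne_nil hw; omega⟩
  refine ⟨(fun z => d z (lab z))^[m] x, h.iterate_mem (by omega), ?_⟩
  rw [h.fin_eq, hm, Function.iterate_succ_apply']

/-- REWIRING LEMMA with permuted ends. -/
theorem rewireP [Fintype Q] [DecidableEq Q] {d : Q → L → Q} {lab : Q → L}
    (hb : Function.Bijective (fun z => d z (lab z)))
    (S : List (Q × List L × List L)) (hne : ∀ s ∈ S, s.2.1 ≠ []) (hne' : ∀ s ∈ S, s.2.2 ≠ [])
    (hold : ∀ s ∈ S, Reads d lab s.1 s.2.1)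
    (hends : (S.map fun s => fin d s.1 s.2.1).Perm (S.map fun s => fin d s.1 s.2.2))
    (hnd : (oldS d S).Nodup) (hperm : (oldS d S).Perm (newS d S)) :
    ∃ lab' : Q → L, Function.Bijective (fun z => d z (lab' z)) ∧ (∀ x, x ∉ oldS d S → lab' x = lab x) ∧
      (∀ s ∈ S, Reads d lab' s.1 s.2.2) ∧
      ∀ {M : Type*} [AddCommMonoid M] (c : Q → L → M),
        ∑ x, c x (lab' x) + (S.map fun s => wt d c s.1 s.2.1).sum =
          ∑ x, c x (lab x) + (S.map fun s => wt d c s.1 s.2.2).sum := by
  classical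
  have hnd' : (newS d S).Nodup := hperm.nodup_iff.1 hnd
  set lab' : Q → L := upd lab (newD d S) with hlab'
  have hout : ∀ x, x ∉ oldS d S → lab' x = lab x := fun x hx =>
    upd_of_notMem (by rw [map_newD]; exact fun h => hx (hperm.mem_iff.2 h))
  have hread : ∀ s ∈ S, Reads d lab' s.1 s.2.2 := by
    intro s hs' p hp
    exact upd_of_mem (by rw [map_newD]; exact hnd') (List.mem_flatMap.2 ⟨s, hs', hp⟩)
  refine ⟨lab', ?_, hout, hread, ?_⟩
  · set f : Q → Q := fun z => d z (lab z) with hf
    set f' : Q → Q := fun z => d z (lab' z) with hf'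
    rw [← Finite.surjective_iff_bijective]
    obtain ⟨hnd1, hnd2⟩ := List.nodup_flatMap.1 hnd
    -- a source which is a start is the first source of its strand
    have hstart : ∀ s ∈ S, ∀ s' ∈ S, ∀ t < s'.2.1.length, f^[t] s'.1 = s.1 → t = 0 ∧ s' = s := by
      intro s h s' h' t ht he
      have m1 : s.1 ∈ src d s.1 s.2.1 := by
        have := (hold s h).iterate_mem (t := 0) (List.length_pos_of_ne_nil (hne s h))
        simpa using this
      have m2 : f^[t] s'.1 ∈ src d s'.1 s'.2.1 := (hold s' h').iterate_mem ht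
      by_cases hss : s' = s
      · subst hss
        refine ⟨?_, rfl⟩
        have n1 := hnd1 s' h
        have e1 := (hold s' h).src_getElem t (by rwa [src_length])
        have e2 := (hold s' h).src_getElem 0 (by rw [src_length]; omega)
        have : (src d s'.1 s'.2.1)[t]'(by rwa [src_length]) =
            (src d s'.1 s'.2.1)[0]'(by rw [src_length]; omega) := by
          rw [e1, e2]; simpa using he
        exact (List.Nodup.getElem_inj_iff n1).1 this
      · exfalso
        have hd : List.Disjoint (src d s'.1 s'.2.1) (src d s.1 s.2.1) := by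
          have hsym : Std.Symm (Function.onFun List.Disjoint
              fun s : Q × List L × List L => src d s.1 s.2.1) := ⟨fun a b h => h.symm⟩
          exact List.Pairwise.forall hnd2 h' h hss
        exact hd m2 (he ▸ m1)
    intro y
    obtain ⟨z, hz⟩ := hb.2 y
    by_cases hzo : z ∈ oldS d S
    · obtain ⟨s, hsS, hzs⟩ := List.mem_flatMap.1 hzo
      obtain ⟨t, ht, hzt⟩ := (hold s hsS).mem_src hzs
      by_cases hlast : t + 1 = s.2.1.length
      · -- the end of a strand
        have hy : y = fin d s.1 s.2.1 := by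
          rw [(hold s hsS).fin_eq, ← hlast, Function.iterate_succ_apply', ← hzt]
          exact hz.symm
        have hm : y ∈ S.map fun s => fin d s.1 s.2.2 :=
          hends.mem_iff.1 (List.mem_map.2 ⟨s, hsS, hy.symm⟩)
        obtain ⟨s', hs', hys'⟩ := List.mem_map.1 hm
        obtain ⟨w, _, hw⟩ := Reads.map_last (hread s' hs') (hne' s' hs')
        exact ⟨w, hw.trans hys'⟩
      · have ht1 : t + 1 < s.2.1.length := by omega
        have hy : y = f^[t + 1] s.1 := by
          rw [Function.iterate_succ_apply', ← hzt]; exact hz.symm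
        have hyo : y ∈ oldS d S :=
          List.mem_flatMap.2 ⟨s, hsS, by rw [hy]; exact (hold s hsS).iterate_mem ht1⟩
        obtain ⟨s', hs', hys'⟩ := List.mem_flatMap.1 (hperm.mem_iff.1 hyo)
        obtain ⟨t', ht', hyt'⟩ := (hread s' hs').mem_src hys'
        rcases t' with _ | t'
        · exfalso
          have h1 : f^[t + 1] s.1 = s'.1 := by rw [← hy]; exact hyt'
          have := hstart s' hs' s hsS (t + 1) ht1 h1
          omega
        · exact ⟨f'^[t'] s'.1, by rw [hyt', Function.iterate_succ_apply']⟩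
    · exact ⟨z, by simp only [hf']; rw [hout z hzo]; exact hz⟩
  · intro M _ c
    have h1 := sum_reads c lab (oldD d S) (by rw [map_oldD]; exact hnd) (by
      intro p hp
      obtain ⟨s, hsS, h⟩ := List.mem_flatMap.1 hp
      exact hold s hsS p h)
    have h2 := sum_reads c lab' (newD d S) (by rw [map_newD]; exact hnd') (by
      intro p hp
      obtain ⟨s, hsS, h⟩ := List.mem_flatMap.1 hp
      exact hread s hsS p h)
    rw [map_oldD] at h1
    rw [map_newD, ← List.toFinset_eq_of_perm _ _ hperm] at h2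
    have e1 := sum_D c _ S (fun s => darts d s.1 s.2.1) (fun s => wt d c s.1 s.2.1)
      (fun s => wt_eq_sum d c s.1 s.2.1)
    have e2 := sum_D c _ S (fun s => darts d s.1 s.2.2) (fun s => wt d c s.1 s.2.2)
      (fun s => wt_eq_sum d c s.1 s.2.2)
    have h1' : ∑ x ∈ (oldS d S).toFinset, c x (lab x) = (S.map fun s => wt d c s.1 s.2.1).sum :=
      h1.trans e1
    have h2' : ∑ x ∈ (oldS d S).toFinset, c x (lab' x) = (S.map fun s => wt d c s.1 s.2.2).sum :=
      h2.trans e2
    have h3 : ∑ x ∈ (oldS d S).toFinsetᶜ, c x (lab' x) = ∑ x ∈ (oldS d S).toFinsetᶜ, c x (lab x) := by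
      apply Finset.sum_congr rfl
      intro x hx
      rw [hout x (by simpa using hx)]
    rw [← Finset.sum_add_sum_compl (oldS d S).toFinset (fun x => c x (lab' x)),
      ← Finset.sum_add_sum_compl (oldS d S).toFinset (fun x => c x (lab x)), h3, h1', h2']
    abel

/-- The orbit relation of a bijective map of a finite set is an equivalence. -/
theorem orbit_equiv [Finite Q] {f : Q → Q} (hf : Function.Bijective f) :
    Equivalence fun x y => ∃ k : ℕ, f^[k] x = y := by
  classical
  have hfin : ∀ x, ∃ n : ℕ, 0 < n ∧ f^[n] x = x := by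
    intro x
    have h : x ∈ Function.periodicPts f := hf.1.mem_periodicPts x
    obtain ⟨n, hn, hp⟩ := h
    exact ⟨n, hn, hp⟩
  refine ⟨fun x => ⟨0, rfl⟩, ?_, ?_⟩
  · rintro x y ⟨k, rfl⟩
    obtain ⟨n, hn, hp⟩ := hfin x
    refine ⟨n * (k + 1) - k, ?_⟩
    rw [← Function.iterate_add_apply, Nat.sub_add_cancel, Function.iterate_mul]
    · have : Function.IsFixedPt (f^[n]) x := hp
      exact this.iterate (k + 1)
    · have : n * (k + 1) ≥ 1 * (k + 1) := Nat.mul_le_mul_right _ hn
      omega
  · rintro x y z ⟨k, rfl⟩ ⟨l, rfl⟩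
    exact ⟨l + k, Function.iterate_add_apply f l k x⟩

/-- REWIRING to a single cycle: connectedness is enough. -/
theorem rewireC [Fintype Q] [DecidableEq Q] {d : Q → L → Q} {lab : Q → L}
    (hb : Function.Bijective (fun z => d z (lab z)))
    (S : List (Q × List L × List L)) (hne : ∀ s ∈ S, s.2.1 ≠ []) (hne' : ∀ s ∈ S, s.2.2 ≠ [])
    (hold : ∀ s ∈ S, Reads d lab s.1 s.2.1)
    (hends : (S.map fun s => fin d s.1 s.2.1).Perm (S.map fun s => fin d s.1 s.2.2))
    (hnd : (oldS d S).Nodup) (hperm : (oldS d S).Perm (newS d S))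
    (hconn : ∀ r : Q → Q → Prop, Equivalence r → (∀ x, x ∉ oldS d S → r x (d x (lab x))) →
      (∀ s ∈ S, r s.1 (fin d s.1 s.2.2)) →
      ∀ x y, (x ∉ oldS d S ∨ ∃ s ∈ S, x = s.1) → (y ∉ oldS d S ∨ ∃ s ∈ S, y = s.1) → r x y) :
    ∃ lab' : Q → L, Single d lab' ∧ (∀ x, x ∉ oldS d S → lab' x = lab x) ∧
      (∀ s ∈ S, Reads d lab' s.1 s.2.2) ∧
      ∀ {M : Type*} [AddCommMonoid M] (c : Q → L → M),
        ∑ x, c x (lab' x) + (S.map fun s => wt d c s.1 s.2.1).sum =
          ∑ x, c x (lab x) + (S.map fun s => wt d c s.1 s.2.2).sum := by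
  obtain ⟨lab', h1, h2, h3, h4⟩ := rewireP hb S hne hne' hold hends hnd hperm
  refine ⟨lab', ?_, h2, h3, h4⟩
  have he := orbit_equiv h1
  have hr : ∀ s ∈ S, ∀ z ∈ src d s.1 s.2.2, ∃ k : ℕ, (fun z => d z (lab' z))^[k] s.1 = z := by
    intro s hs z hz
    obtain ⟨t, _, ht⟩ := (h3 s hs).mem_src hz
    exact ⟨t, ht.symm⟩
  have hc := hconn _ he (fun x hx => ⟨1, by rw [Function.iterate_one, h2 x hx]⟩)
    (fun s hs => ⟨s.2.2.length, by rw [(h3 s hs).fin_eq]⟩)
  have hrep : ∀ x, ∃ y, (y ∉ oldS d S ∨ ∃ s ∈ S, y = s.1) ∧ ∃ k : ℕ, (fun z => d z (lab' z))^[k] y = x := by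
    intro x
    by_cases hx : x ∈ oldS d S
    · obtain ⟨s, hs, hxs⟩ := List.mem_flatMap.1 (hperm.mem_iff.1 hx)
      exact ⟨s.1, Or.inr ⟨s, hs, rfl⟩, hr s hs x hxs⟩
    · exact ⟨x, Or.inl hx, 0, rfl⟩
  intro x y
  obtain ⟨x', hx', hxx'⟩ := hrep x
  obtain ⟨y', hy', hyy'⟩ := hrep y
  exact he.trans (he.symm hxx') (he.trans (hc x' y' hx' hy') hyy')

/-- A function which is constant along the orbits of a permutation with the exception of one step is constant. -/
theorem one_step [Finite Q] {f : Q → Q} (hf : Function.Bijective f) {α : Type*} (c : Q → α) (z : Q)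
    (h : ∀ x, x ≠ z → c (f x) = c x) : c (f z) = c z := by
  classical
  have hx : z ∈ Function.periodicPts f := hf.1.mem_periodicPts z
  obtain ⟨n, hn, hp⟩ := hx
  have hex : ∃ n : ℕ, 0 < n ∧ f^[n] z = z := ⟨n, hn, hp⟩
  set m := Nat.find hex with hm
  obtain ⟨hm0, hmz⟩ := Nat.find_spec hex
  have key : ∀ k, k + 1 ≤ m → c (f^[k + 1] z) = c (f z) := by
    intro k
    induction k with
    | zero => intro _; rfl
    | succ k ih =>
      intro hk
      rw [Function.iterate_succ_apply', h _ ?_]
      · exact ih (by omega)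
      · intro h0
        exact Nat.find_min hex (m := k + 1) (by omega) ⟨by omega, h0⟩
  obtain ⟨k, hk⟩ : ∃ k, m = k + 1 := ⟨m - 1, by omega⟩
  have := key k (by omega)
  rw [← hk, hmz] at this
  exact this.symm

end Pool.Agent.Lib.MP_688fd0_co.SQ2
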