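import Pool.Agent.Lib.MP_688fd0_co.OSF.Defs

/-!
Through windows: path systems with one cup, one cap and a bijection of the other strands (tokens).

`L₀` is the bottom frontier (one vertex for each strand), `L₁` the top frontier (not used by the window), `R` the multiset
of used vertices.
-/

set_option autoImplicit false

namespace Pool.Agent.Lib.MP_688fd0_co.SQ2

open Pool.Agent.Lib.MP_688fd0_co.OSF

universe u v w

section basic

variable {Q : Type u} [Group Q] (B : Lb.{u, v} Q)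

/-- The vertices of a path without its end. -/
def src : Q → List B.L → List Q
  | _, [] => []
  | x, g :: l => x :: src (x * B.q g) l

variable {B}

theorem fin_append (x : Q) (l l' : List B.L) : B.fin x (l ++ l') = B.fin (B.fin x l) l' := by
  induction l generalizing x with
  | nil => rfl
  | cons g l ih => exact ih _

theorem src_append (x : Q) (l l' : List B.L) : src B x (l ++ l') = src B x l ++ src B (B.fin x l) l' := by
  induction l generalizing x with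
  | nil => rfl
  | cons g l ih => exact congrArg (List.cons x) (ih _)

theorem verts_eq (x : Q) (l : List B.L) : B.verts x l = src B x l ++ [B.fin x l] := by
  induction l generalizing x with
  | nil => rfl
  | cons g l ih => exact congrArg (List.cons x) (ih _)

theorem fin_tr (y x : Q) (l : List B.L) : B.fin (y * x) l = y * B.fin x l := by
  induction l generalizing x with
  | nil => rfl
  | cons g l ih =>
    show B.fin (y * x * B.q g) l = y * B.fin (x * B.q g) l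
    rw [mul_assoc, ih]

theorem src_tr (y x : Q) (l : List B.L) : src B (y * x) l = (src B x l).map (y * ·) := by
  induction l generalizing x with
  | nil => rfl
  | cons g l ih =>
    show (y * x) :: src B (y * x * B.q g) l = _ :: (src B (x * B.q g) l).map _
    rw [mul_assoc, ih]

theorem verts_tr (y x : Q) (l : List B.L) : B.verts (y * x) l = (B.verts x l).map (y * ·) := by
  rw [verts_eq, verts_eq, src_tr, fin_tr]; simp

theorem src_ne_nil (x : Q) {l : List B.L} (h : l ≠ []) : src B x l = x :: (src B x l).tail := by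
  cases l with
  | nil => exact absurd rfl h
  | cons g l => rfl

theorem rev_cons (g : B.L) (l : List B.L) : B.rev (g :: l) = B.rev l ++ [B.inv g] := by
  simp [Lb.rev]

theorem rev_append (l l' : List B.L) : B.rev (l ++ l') = B.rev l' ++ B.rev l := by
  simp [Lb.rev]

theorem fin_rev (x : Q) (l : List B.L) : B.fin (B.fin x l) (B.rev l) = x := by
  induction l generalizing x with
  | nil => rfl
  | cons g l ih =>
    rw [rev_cons, fin_append]
    show B.fin (B.fin (B.fin (x * B.q g) l) (B.rev l)) [B.inv g] = x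
    rw [ih]
    show x * B.q g * B.q (B.inv g) = x
    rw [B.q_inv]; group

theorem verts_rev (x : Q) (l : List B.L) : B.verts (B.fin x l) (B.rev l) = (B.verts x l).reverse := by
  induction l generalizing x with
  | nil => rfl
  | cons g l ih =>
    show B.verts (B.fin (x * B.q g) l) (B.rev (g :: l)) = (x :: B.verts (x * B.q g) l).reverse
    rw [rev_cons, verts_eq, src_append, fin_append, fin_rev]
    have h := ih (x * B.q g)
    rw [verts_eq, fin_rev] at h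
    rw [List.reverse_cons, ← h]
    show _ ++ [x * B.q g] ++ [x * B.q g * B.q (B.inv g)] = _
    rw [B.q_inv]
    simp

/-- Left translation of a finite set. -/
def lt (y : Q) (L : Finset Q) : Finset Q := L.map (Equiv.mulLeft y).toEmbedding

/-- Right translation of a finite set. -/
def rt (L : Finset Q) (y : Q) : Finset Q := L.map (Equiv.mulRight y).toEmbedding

theorem mem_lt {y x : Q} {L : Finset Q} : x ∈ lt y L ↔ y⁻¹ * x ∈ L := by
  unfold lt
  rw [Finset.mem_map_equiv]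
  rfl

theorem mem_rt {y x : Q} {L : Finset Q} : x ∈ rt L y ↔ x * y⁻¹ ∈ L := by
  unfold rt
  rw [Finset.mem_map_equiv]
  rfl

theorem mul_mem_lt {y x : Q} {L : Finset Q} : y * x ∈ lt y L ↔ x ∈ L := by
  rw [mem_lt, inv_mul_cancel_left]

theorem mul_mem_rt {y x : Q} {L : Finset Q} : x * y ∈ rt L y ↔ x ∈ L := by
  rw [mem_rt, mul_inv_cancel_right]

theorem lt_one (L : Finset Q) : lt 1 L = L := by
  ext x; rw [mem_lt, inv_one, one_mul]

theorem lt_mul (y z : Q) (L : Finset Q) : lt (y * z) L = lt y (lt z L) := by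
  ext x; rw [mem_lt, mem_lt, mem_lt, mul_inv_rev, mul_assoc]

theorem rt_mul (y z : Q) (L : Finset Q) : rt L (y * z) = rt (rt L y) z := by
  ext x; rw [mem_rt, mem_rt, mem_rt, mul_inv_rev, mul_assoc]

theorem lt_rt (y z : Q) (L : Finset Q) : lt y (rt L z) = rt (lt y L) z := by
  ext x; rw [mem_lt, mem_rt, mem_rt, mem_lt, mul_assoc]

end basic

/-- A through window. -/
structure TW {Q : Type u} [Group Q] (B : Lb.{u, v} Q) where
  L₀ : Finset Q
  L₁ : Finset Q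
  u₀ : Q
  u₁ : Q
  w₀ : Q
  w₁ : Q
  cup : List B.L
  cap : List B.L
  f : Q → Q
  path : Q → List B.L
  hu₀ : u₀ ∈ L₀
  hu₁ : u₁ ∈ L₀
  hu : u₀ ≠ u₁
  hw₀ : w₀ ∈ L₁
  hw₁ : w₁ ∈ L₁
  hw : w₀ ≠ w₁
  cup_fin : B.fin u₀ cup = u₁
  cap_fin : B.fin w₀ cap = w₁
  path_fin : ∀ x ∈ L₀, x ≠ u₀ → x ≠ u₁ → B.fin x (path x) = f x
  f_mem : ∀ x ∈ L₀, x ≠ u₀ → x ≠ u₁ → f x ∈ L₁ ∧ f x ≠ w₀ ∧ f x ≠ w₁
  f_inj : ∀ x ∈ L₀, x ≠ u₀ → x ≠ u₁ → ∀ y ∈ L₀, y ≠ u₀ → y ≠ u₁ → f x = f y → x = y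
  f_surj : ∀ y ∈ L₁, y ≠ w₀ → y ≠ w₁ → ∃ x ∈ L₀, x ≠ u₀ ∧ x ≠ u₁ ∧ f x = y

namespace TW

variable {Q : Type u} [Group Q] [DecidableEq Q] {B : Lb.{u, v} Q}

/-- The tokens at the bottom. -/
def tok₀ (X : TW B) : Finset Q := (X.L₀.erase X.u₀).erase X.u₁

/-- The tokens at the top. -/
def tok₁ (X : TW B) : Finset Q := (X.L₁.erase X.w₀).erase X.w₁

theorem mem_tok₀ {X : TW B} {x : Q} : x ∈ X.tok₀ ↔ x ∈ X.L₀ ∧ x ≠ X.u₀ ∧ x ≠ X.u₁ := by
  unfold tok₀; rw [Finset.mem_erase, Finset.mem_erase]; tauto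

theorem mem_tok₁ {X : TW B} {x : Q} : x ∈ X.tok₁ ↔ x ∈ X.L₁ ∧ x ≠ X.w₀ ∧ x ≠ X.w₁ := by
  unfold tok₁; rw [Finset.mem_erase, Finset.mem_erase]; tauto

/-- The multiset of used vertices. -/
def R (X : TW B) : Multiset Q :=
  ∑ x ∈ X.tok₀, (src B x (X.path x) : Multiset Q) + (B.verts X.u₀ X.cup : Multiset Q) +
    ((src B X.w₀ X.cap).tail : Multiset Q)

theorem cap_ne (X : TW B) : X.cap ≠ [] := by
  intro h
  have := X.cap_fin
  rw [h] at this
  exact X.hw this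

theorem cup_ne (X : TW B) : X.cup ≠ [] := by
  intro h
  have := X.cup_fin
  rw [h] at this
  exact X.hu this

theorem L₀_val (X : TW B) : X.L₀.val = X.tok₀.val + {X.u₀} + {X.u₁} := by
  unfold tok₀
  have h1 : X.u₁ ∈ X.L₀.erase X.u₀ := Finset.mem_erase.2 ⟨X.hu.symm, X.hu₁⟩
  have e1 : (X.L₀.erase X.u₀).val = ((X.L₀.erase X.u₀).erase X.u₁).val + {X.u₁} := by
    rw [Finset.erase_val (X.L₀.erase X.u₀), Multiset.add_comm]
    exact (Multiset.cons_erase (Finset.mem_def.1 h1)).symm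
  have e2 : X.L₀.val = (X.L₀.erase X.u₀).val + {X.u₀} := by
    rw [Finset.erase_val, Multiset.add_comm]
    exact (Multiset.cons_erase (Finset.mem_def.1 X.hu₀)).symm
  rw [e2, e1]; abel

theorem L₁_val (X : TW B) : X.L₁.val = X.tok₁.val + {X.w₀} + {X.w₁} := by
  unfold tok₁
  have h1 : X.w₁ ∈ X.L₁.erase X.w₀ := Finset.mem_erase.2 ⟨X.hw.symm, X.hw₁⟩
  have e1 : (X.L₁.erase X.w₀).val = ((X.L₁.erase X.w₀).erase X.w₁).val + {X.w₁} := by
    rw [Finset.erase_val (X.L₁.erase X.w₀), Multiset.add_comm]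
    exact (Multiset.cons_erase (Finset.mem_def.1 h1)).symm
  have e2 : X.L₁.val = (X.L₁.erase X.w₀).val + {X.w₀} := by
    rw [Finset.erase_val, Multiset.add_comm]
    exact (Multiset.cons_erase (Finset.mem_def.1 X.hw₀)).symm
  rw [e2, e1]; abel

/-- Reindexing of sums over the tokens. -/
theorem sum_f {M : Type*} [AddCommMonoid M] (X : TW B) (g : Q → M) :
    ∑ x ∈ X.tok₀, g (X.f x) = ∑ y ∈ X.tok₁, g y := by
  refine Finset.sum_nbij X.f ?_ ?_ ?_ ?_
  · intro x hx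
    rw [mem_tok₀] at hx
    rw [mem_tok₁]
    exact X.f_mem x hx.1 hx.2.1 hx.2.2
  · intro x hx y hy h
    have hx := mem_tok₀.1 (Finset.mem_coe.1 hx)
    have hy := mem_tok₀.1 (Finset.mem_coe.1 hy)
    exact X.f_inj x hx.1 hx.2.1 hx.2.2 y hy.1 hy.2.1 hy.2.2 h
  · intro y hy
    have hy := mem_tok₁.1 (Finset.mem_coe.1 hy)
    obtain ⟨x, h1, h2, h3, h4⟩ := X.f_surj y hy.1 hy.2.1 hy.2.2
    exact ⟨x, Finset.mem_coe.2 (mem_tok₀.2 ⟨h1, h2, h3⟩), h4⟩
  · intro x _; rfl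

omit [Group Q] [DecidableEq Q] in
theorem sum_singleton (s : Finset Q) : ∑ x ∈ s, ({x} : Multiset Q) = s.val := by
  classical
  induction s using Finset.induction_on with
  | empty => rfl
  | insert x s hx ih =>
    rw [Finset.sum_insert hx, ih, Finset.insert_val_of_notMem hx]
    rfl

/-! ### Reversed cups and caps -/

/-- The cup is run in the other direction. -/
def flipCup (X : TW B) : TW B where
  L₀ := X.L₀
  L₁ := X.L₁
  u₀ := X.u₁
  u₁ := X.u₀
  w₀ := X.w₀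
  w₁ := X.w₁
  cup := B.rev X.cup
  cap := X.cap
  f := X.f
  path := X.path
  hu₀ := X.hu₁
  hu₁ := X.hu₀
  hu := X.hu.symm
  hw₀ := X.hw₀
  hw₁ := X.hw₁
  hw := X.hw
  cup_fin := by
    conv_lhs => rw [← X.cup_fin]
    exact fin_rev _ _
  cap_fin := X.cap_fin
  path_fin := fun x h h0 h1 => X.path_fin x h h1 h0
  f_mem := fun x h h0 h1 => X.f_mem x h h1 h0
  f_inj := fun x h h0 h1 y h' h0' h1' => X.f_inj x h h1 h0 y h' h1' h0'
  f_surj := fun y h h0 h1 => by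
    obtain ⟨x, a, b, c, d⟩ := X.f_surj y h h0 h1
    exact ⟨x, a, c, b, d⟩

/-- The cap is run in the other direction. -/
def flipCap (X : TW B) : TW B where
  L₀ := X.L₀
  L₁ := X.L₁
  u₀ := X.u₀
  u₁ := X.u₁
  w₀ := X.w₁
  w₁ := X.w₀
  cup := X.cup
  cap := B.rev X.cap
  f := X.f
  path := X.path
  hu₀ := X.hu₀
  hu₁ := X.hu₁
  hu := X.hu
  hw₀ := X.hw₁
  hw₁ := X.hw₀
  hw := X.hw.symm
  cup_fin := X.cup_fin
  cap_fin := by
    conv_lhs => rw [← X.cap_fin]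
    exact fin_rev _ _
  path_fin := X.path_fin
  f_mem := fun x h h0 h1 => ⟨(X.f_mem x h h0 h1).1, (X.f_mem x h h0 h1).2.2, (X.f_mem x h h0 h1).2.1⟩
  f_inj := X.f_inj
  f_surj := fun y h h0 h1 => X.f_surj y h h1 h0

theorem flipCup_tok₀ (X : TW B) : X.flipCup.tok₀ = X.tok₀ := by
  ext x; rw [mem_tok₀, mem_tok₀]
  show x ∈ X.L₀ ∧ x ≠ X.u₁ ∧ x ≠ X.u₀ ↔ _
  tauto

theorem flipCap_tok₁ (X : TW B) : X.flipCap.tok₁ = X.tok₁ := by
  ext x; rw [mem_tok₁, mem_tok₁]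
  show x ∈ X.L₁ ∧ x ≠ X.w₁ ∧ x ≠ X.w₀ ↔ _
  tauto

theorem flipCup_R (X : TW B) : X.flipCup.R = X.R := by
  unfold R
  rw [flipCup_tok₀]
  show _ + (B.verts X.u₁ (B.rev X.cup) : Multiset Q) + _ = _
  have : B.verts X.u₁ (B.rev X.cup) = (B.verts X.u₀ X.cup).reverse := by
    conv_lhs => rw [← X.cup_fin]
    exact verts_rev _ _
  rw [this, Multiset.coe_reverse]
  rfl

omit [DecidableEq Q] in
theorem tail_src_rev (x : Q) (l : List B.L) (h : l ≠ []) :
    (src B (B.fin x l) (B.rev l)).tail = ((src B x l).tail).reverse := by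
  have h1 := verts_rev x l
  rw [verts_eq, verts_eq, fin_rev] at h1
  have h2 : B.rev l ≠ [] := by
    intro h0
    apply h
    have := congrArg List.length h0
    simpa [Lb.rev] using this
  rw [src_ne_nil x h, src_ne_nil _ h2] at h1
  rw [List.reverse_append, List.reverse_cons] at h1
  simp only [List.reverse_cons, List.reverse_nil, List.nil_append, List.cons_append] at h1
  have h3 := (List.cons_eq_cons.1 h1).2
  exact List.append_cancel_right h3

theorem flipCap_R (X : TW B) : X.flipCap.R = X.R := by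
  unfold R
  show _ + _ + ((src B X.w₁ (B.rev X.cap)).tail : Multiset Q) = _
  have : (src B X.w₁ (B.rev X.cap)).tail = ((src B X.w₀ X.cap).tail).reverse := by
    conv_lhs => rw [← X.cap_fin]
    exact tail_src_rev _ _ X.cap_ne
  rw [this, Multiset.coe_reverse]
  rfl

/-! ### Extension by one vertex on each strand -/

/-- All strands go on by the label `a`. -/
def ext (X : TW B) (a : B.L) : TW B where
  L₀ := X.L₀
  L₁ := rt X.L₁ (B.q a)
  u₀ := X.u₀
  u₁ := X.u₁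
  w₀ := X.w₀ * B.q a
  w₁ := X.w₁ * B.q a
  cup := X.cup
  cap := B.inv a :: (X.cap ++ [a])
  f := fun x => X.f x * B.q a
  path := fun x => X.path x ++ [a]
  hu₀ := X.hu₀
  hu₁ := X.hu₁
  hu := X.hu
  hw₀ := mul_mem_rt.2 X.hw₀
  hw₁ := mul_mem_rt.2 X.hw₁
  hw := fun h => X.hw (mul_right_cancel h)
  cup_fin := X.cup_fin
  cap_fin := by
    show B.fin (X.w₀ * B.q a * B.q (B.inv a)) (X.cap ++ [a]) = _
    rw [B.q_inv, mul_inv_cancel_right, fin_append, X.cap_fin]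
    rfl
  path_fin := fun x h h0 h1 => by
    rw [fin_append, X.path_fin x h h0 h1]
    rfl
  f_mem := fun x h h0 h1 => by
    obtain ⟨a1, a2, a3⟩ := X.f_mem x h h0 h1
    exact ⟨mul_mem_rt.2 a1, fun h => a2 (mul_right_cancel h), fun h => a3 (mul_right_cancel h)⟩
  f_inj := fun x h h0 h1 y h' h0' h1' he => X.f_inj x h h0 h1 y h' h0' h1' (mul_right_cancel he)
  f_surj := fun y h h0 h1 => by
    obtain ⟨x, a1, a2, a3, a4⟩ := X.f_surj (y * (B.q a)⁻¹) (mem_rt.1 h)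
      (fun h => h0 (by rw [← h]; group)) (fun h => h1 (by rw [← h]; group))
    exact ⟨x, a1, a2, a3, by rw [a4]; group⟩

theorem ext_R (X : TW B) (a : B.L) : (X.ext a).R = X.R + X.L₁.val := by
  have h1 : ∑ x ∈ X.tok₀, (src B x (X.path x ++ [a]) : Multiset Q) =
      ∑ x ∈ X.tok₀, (src B x (X.path x) : Multiset Q) + X.tok₁.val := by
    rw [← sum_singleton X.tok₁, ← X.sum_f, ← Finset.sum_add_distrib]
    refine Finset.sum_congr rfl fun x hx => ?_
    rw [mem_tok₀] at hx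
    rw [src_append, X.path_fin x hx.1 hx.2.1 hx.2.2]
    rfl
  have h2 : (src B (X.w₀ * B.q a) (B.inv a :: (X.cap ++ [a]))).tail =
      (X.w₀ :: (src B X.w₀ X.cap).tail) ++ [X.w₁] := by
    show src B (X.w₀ * B.q a * B.q (B.inv a)) (X.cap ++ [a]) = _
    rw [B.q_inv, mul_inv_cancel_right, src_append, X.cap_fin, ← src_ne_nil _ X.cap_ne]
    rfl
  have e1 : (X.ext a).R = ∑ x ∈ X.tok₀, (src B x (X.path x ++ [a]) : Multiset Q) +
      (B.verts X.u₀ X.cup : Multiset Q) +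
      ((src B (X.w₀ * B.q a) (B.inv a :: (X.cap ++ [a]))).tail : Multiset Q) := rfl
  rw [e1, h1, h2, L₁_val]
  unfold R
  have e2 : (((X.w₀ :: (src B X.w₀ X.cap).tail) ++ [X.w₁] : List Q) : Multiset Q) =
      {X.w₀} + ((src B X.w₀ X.cap).tail : Multiset Q) + {X.w₁} := rfl
  rw [e2]
  abel

/-- `n` steps. -/
def extn (X : TW B) (a : B.L) : ℕ → TW B
  | 0 => X
  | n + 1 => (X.extn a n).ext a

/-! ### Translation -/

/-- Left translation. -/
def tr (X : TW B) (y : Q) : TW B where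
  L₀ := lt y X.L₀
  L₁ := lt y X.L₁
  u₀ := y * X.u₀
  u₁ := y * X.u₁
  w₀ := y * X.w₀
  w₁ := y * X.w₁
  cup := X.cup
  cap := X.cap
  f := fun x => y * X.f (y⁻¹ * x)
  path := fun x => X.path (y⁻¹ * x)
  hu₀ := mul_mem_lt.2 X.hu₀
  hu₁ := mul_mem_lt.2 X.hu₁
  hu := fun h => X.hu (mul_left_cancel h)
  hw₀ := mul_mem_lt.2 X.hw₀
  hw₁ := mul_mem_lt.2 X.hw₁
  hw := fun h => X.hw (mul_left_cancel h)
  cup_fin := by rw [fin_tr, X.cup_fin]
  cap_fin := by rw [fin_tr, X.cap_fin]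
  path_fin := fun x h h0 h1 => by
    conv_lhs => rw [show x = y * (y⁻¹ * x) by group]
    rw [fin_tr, inv_mul_cancel_left, X.path_fin _ (mem_lt.1 h)]
    · exact fun h => h0 (by rw [← h]; group)
    · exact fun h => h1 (by rw [← h]; group)
  f_mem := fun x h h0 h1 => by
    obtain ⟨a1, a2, a3⟩ := X.f_mem _ (mem_lt.1 h) (fun h => h0 (by rw [← h]; group))
      (fun h => h1 (by rw [← h]; group))
    exact ⟨mul_mem_lt.2 a1, fun h => a2 (mul_left_cancel h), fun h => a3 (mul_left_cancel h)⟩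
  f_inj := fun x h h0 h1 x' h' h0' h1' he => by
    have := X.f_inj _ (mem_lt.1 h) (fun h => h0 (by rw [← h]; group))
      (fun h => h1 (by rw [← h]; group)) _ (mem_lt.1 h') (fun h => h0' (by rw [← h]; group))
      (fun h => h1' (by rw [← h]; group)) (mul_left_cancel he)
    exact mul_left_cancel this
  f_surj := fun z h h0 h1 => by
    obtain ⟨x, a1, a2, a3, a4⟩ := X.f_surj _ (mem_lt.1 h) (fun h => h0 (by rw [← h]; group))
      (fun h => h1 (by rw [← h]; group))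
    exact ⟨y * x, mul_mem_lt.2 a1, fun h => a2 (mul_left_cancel h), fun h => a3 (mul_left_cancel h),
      by rw [inv_mul_cancel_left, a4]; group⟩

theorem tr_R (X : TW B) (y : Q) : (X.tr y).R = X.R.map (y * ·) := by
  have h1 : (X.tr y).tok₀ = X.tok₀.map (Equiv.mulLeft y).toEmbedding := by
    ext x
    rw [mem_tok₀, Finset.mem_map_equiv, mem_tok₀]
    show x ∈ lt y X.L₀ ∧ x ≠ y * X.u₀ ∧ x ≠ y * X.u₁ ↔ y⁻¹ * x ∈ X.L₀ ∧ y⁻¹ * x ≠ X.u₀ ∧ y⁻¹ * x ≠ X.u₁
    rw [mem_lt, Ne, Ne, Ne, Ne, inv_mul_eq_iff_eq_mul, inv_mul_eq_iff_eq_mul]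
  unfold R
  rw [h1, Finset.sum_map, Multiset.map_add, Multiset.map_add]
  congr 1
  · congr 1
    · rw [← Multiset.coe_mapAddMonoidHom, map_sum]
      refine Finset.sum_congr rfl fun x _ => ?_
      show (src B (y * x) (X.path (y⁻¹ * (y * x))) : Multiset Q) =
        Multiset.map (y * ·) (src B x (X.path x) : Multiset Q)
      rw [inv_mul_cancel_left, src_tr]
      rfl
    · show (B.verts (y * X.u₀) X.cup : Multiset Q) = _
      rw [verts_tr]; rfl
  · show ((src B (y * X.w₀) X.cap).tail : Multiset Q) = _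
    rw [src_tr, Multiset.map_coe, List.map_tail]

/-! ### Composition -/

/-- The token `Y.u₀` jumps to `X.w₁`. -/
def jump (X Y : TW B) (y : Q) : Q := if y = Y.u₀ then X.w₁ else y

/-- The labels of the jump. -/
def jumpl (X Y : TW B) (y : Q) : List B.L := if y = Y.u₀ then Y.cup ++ X.cap else []

theorem jump_fin (X Y : TW B) (h1 : X.w₀ = Y.u₁) (y : Q) : B.fin y (jumpl X Y y) = jump X Y y := by
  unfold jump jumpl
  by_cases h : y = Y.u₀
  · rw [if_pos h, if_pos h, fin_append, h, Y.cup_fin, ← h1, X.cap_fin]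
  · rw [if_neg h, if_neg h]; rfl

theorem jump_mem (X Y : TW B) (h : X.L₁ = Y.L₀) (h1 : X.w₀ = Y.u₁) (h2 : X.w₁ ≠ Y.u₀) {y : Q}
    (hy : y ∈ X.tok₁) : jump X Y y ∈ Y.tok₀ := by
  rw [mem_tok₁] at hy
  rw [mem_tok₀]
  unfold jump
  by_cases h3 : y = Y.u₀
  · rw [if_pos h3]
    exact ⟨h ▸ X.hw₁, h2, fun h4 => X.hw (by rw [h1, h4])⟩
  · rw [if_neg h3]
    exact ⟨h ▸ hy.1, h3, fun h4 => hy.2.1 (by rw [h1, h4])⟩

theorem jump_inj (X Y : TW B) {y z : Q} (hy : y ∈ X.tok₁) (hz : z ∈ X.tok₁)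
    (he : jump X Y y = jump X Y z) : y = z := by
  rw [mem_tok₁] at hy hz
  unfold jump at he
  by_cases h3 : y = Y.u₀ <;> by_cases h4 : z = Y.u₀
  · rw [h3, h4]
  · rw [if_pos h3, if_neg h4] at he; exact absurd he.symm hz.2.2
  · rw [if_neg h3, if_pos h4] at he; exact absurd he hy.2.2
  · rwa [if_neg h3, if_neg h4] at he

theorem jump_surj (X Y : TW B) (h : X.L₁ = Y.L₀) (h1 : X.w₀ = Y.u₁) (h2 : X.w₁ ≠ Y.u₀) {z : Q}
    (hz : z ∈ Y.tok₀) : ∃ y ∈ X.tok₁, jump X Y y = z := by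
  rw [mem_tok₀] at hz
  by_cases h3 : z = X.w₁
  · refine ⟨Y.u₀, ?_, ?_⟩
    · rw [mem_tok₁]
      exact ⟨h ▸ Y.hu₀, fun h4 => Y.hu (by rw [h4, h1]), fun h4 => h2 h4.symm⟩
    · unfold jump; rw [if_pos rfl, h3]
  · refine ⟨z, ?_, ?_⟩
    · rw [mem_tok₁]
      exact ⟨h ▸ hz.1, fun h4 => hz.2.2 (by rw [h4, h1]), h3⟩
    · unfold jump; rw [if_neg hz.2.1]

theorem sum_jump {M : Type*} [AddCommMonoid M] (X Y : TW B) (h : X.L₁ = Y.L₀) (h1 : X.w₀ = Y.u₁)
    (h2 : X.w₁ ≠ Y.u₀) (g : Q → M) :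
    ∑ y ∈ X.tok₁, g (jump X Y y) = ∑ z ∈ Y.tok₀, g z := by
  refine Finset.sum_nbij (jump X Y) ?_ ?_ ?_ ?_
  · intro y hy; exact jump_mem X Y h h1 h2 hy
  · intro y hy z hz he; exact jump_inj X Y (Finset.mem_coe.1 hy) (Finset.mem_coe.1 hz) he
  · intro z hz
    obtain ⟨y, a, b⟩ := jump_surj X Y h h1 h2 (Finset.mem_coe.1 hz)
    exact ⟨y, Finset.mem_coe.2 a, b⟩
  · intro y _; rfl

/-- Composition: the cap of `X` and the cup of `Y` have exactly one strand in common. -/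
def comp (X Y : TW B) (h : X.L₁ = Y.L₀) (h1 : X.w₀ = Y.u₁) (h2 : X.w₁ ≠ Y.u₀) : TW B where
  L₀ := X.L₀
  L₁ := Y.L₁
  u₀ := X.u₀
  u₁ := X.u₁
  w₀ := Y.w₀
  w₁ := Y.w₁
  cup := X.cup
  cap := Y.cap
  f := fun x => Y.f (jump X Y (X.f x))
  path := fun x => X.path x ++ (jumpl X Y (X.f x) ++ Y.path (jump X Y (X.f x)))
  hu₀ := X.hu₀
  hu₁ := X.hu₁
  hu := X.hu
  hw₀ := Y.hw₀
  hw₁ := Y.hw₁
  hw := Y.hw
  cup_fin := X.cup_fin
  cap_fin := Y.cap_fin
  path_fin := fun x h0 h3 h4 => by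
    rw [fin_append, fin_append, X.path_fin x h0 h3 h4, jump_fin X Y h1]
    have := mem_tok₀.1 (jump_mem X Y h h1 h2 (mem_tok₁.2 (X.f_mem x h0 h3 h4)))
    exact Y.path_fin _ this.1 this.2.1 this.2.2
  f_mem := fun x h0 h3 h4 => by
    have := mem_tok₀.1 (jump_mem X Y h h1 h2 (mem_tok₁.2 (X.f_mem x h0 h3 h4)))
    exact Y.f_mem _ this.1 this.2.1 this.2.2
  f_inj := fun x h0 h3 h4 y h0' h3' h4' he => by
    have m1 := mem_tok₁.2 (X.f_mem x h0 h3 h4)
    have m2 := mem_tok₁.2 (X.f_mem y h0' h3' h4')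
    have n1 := mem_tok₀.1 (jump_mem X Y h h1 h2 m1)
    have n2 := mem_tok₀.1 (jump_mem X Y h h1 h2 m2)
    have := Y.f_inj _ n1.1 n1.2.1 n1.2.2 _ n2.1 n2.2.1 n2.2.2 he
    exact X.f_inj x h0 h3 h4 y h0' h3' h4' (jump_inj X Y m1 m2 this)
  f_surj := fun z h0 h3 h4 => by
    obtain ⟨y, a1, a2, a3, a4⟩ := Y.f_surj z h0 h3 h4
    obtain ⟨y', b1, b2⟩ := jump_surj X Y h h1 h2 (mem_tok₀.2 ⟨a1, a2, a3⟩)
    rw [mem_tok₁] at b1
    obtain ⟨x, c1, c2, c3, c4⟩ := X.f_surj y' b1.1 b1.2.1 b1.2.2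
    exact ⟨x, c1, c2, c3, by rw [c4, b2, a4]⟩

theorem comp_R (X Y : TW B) (h : X.L₁ = Y.L₀) (h1 : X.w₀ = Y.u₁) (h2 : X.w₁ ≠ Y.u₀) :
    (X.comp Y h h1 h2).R = X.R + Y.R := by
  have e0 : (X.comp Y h h1 h2).R = ∑ x ∈ X.tok₀,
      (src B x (X.path x ++ (jumpl X Y (X.f x) ++ Y.path (jump X Y (X.f x)))) : Multiset Q) +
      (B.verts X.u₀ X.cup : Multiset Q) + ((src B Y.w₀ Y.cap).tail : Multiset Q) := rfl
  have e1 : ∑ x ∈ X.tok₀,
      (src B x (X.path x ++ (jumpl X Y (X.f x) ++ Y.path (jump X Y (X.f x)))) : Multiset Q) =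
      ∑ x ∈ X.tok₀, (src B x (X.path x) : Multiset Q) +
      ∑ x ∈ X.tok₀, ((src B (X.f x) (jumpl X Y (X.f x)) : Multiset Q) +
        (src B (jump X Y (X.f x)) (Y.path (jump X Y (X.f x))) : Multiset Q)) := by
    rw [← Finset.sum_add_distrib]
    refine Finset.sum_congr rfl fun x hx => ?_
    rw [mem_tok₀] at hx
    rw [src_append, src_append, X.path_fin x hx.1 hx.2.1 hx.2.2, jump_fin X Y h1]
    rfl
  have e2 : ∑ x ∈ X.tok₀, ((src B (X.f x) (jumpl X Y (X.f x)) : Multiset Q) +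
        (src B (jump X Y (X.f x)) (Y.path (jump X Y (X.f x))) : Multiset Q)) =
      ∑ y ∈ X.tok₁, (src B y (jumpl X Y y) : Multiset Q) +
      ∑ z ∈ Y.tok₀, (src B z (Y.path z) : Multiset Q) := by
    rw [X.sum_f (fun y => (src B y (jumpl X Y y) : Multiset Q) +
        (src B (jump X Y y) (Y.path (jump X Y y)) : Multiset Q)), Finset.sum_add_distrib,
        sum_jump X Y h h1 h2 (fun z => (src B z (Y.path z) : Multiset Q))]
  have e3 : ∑ y ∈ X.tok₁, (src B y (jumpl X Y y) : Multiset Q) =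
      (src B Y.u₀ (Y.cup ++ X.cap) : Multiset Q) := by
    rw [Finset.sum_eq_single Y.u₀]
    · unfold jumpl; rw [if_pos rfl]
    · intro y _ hy
      unfold jumpl; rw [if_neg hy]; rfl
    · intro hn
      exfalso; apply hn
      rw [mem_tok₁]
      exact ⟨h ▸ Y.hu₀, fun h4 => Y.hu (by rw [h4, h1]), fun h4 => h2 h4.symm⟩
  have e4 : (src B Y.u₀ (Y.cup ++ X.cap) : Multiset Q) =
      (B.verts Y.u₀ Y.cup : Multiset Q) + ((src B X.w₀ X.cap).tail : Multiset Q) := by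
    rw [src_append, Y.cup_fin, ← h1, src_ne_nil _ X.cap_ne, verts_eq, Y.cup_fin, ← h1]
    simp only [List.tail_cons]
    rw [← Multiset.coe_add, ← Multiset.coe_add, add_assoc]
    rfl
  rw [e0, e1, e2, e3, e4]
  unfold R
  abel

end TW

end Pool.Agent.Lib.MP_688fd0_co.SQ2
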