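import Pool.Agent.Lib.MP_688fd0_co.SQ2.Words3
import Pool.Agent.Lib.MP_688fd0_co.SQ2.H62.Blocks

/-!
WORDS, part 4: two walks with different costs are two versions of a flat window with different volumes.
-/

set_option autoImplicit false

namespace Pool.Agent.Lib.MP_688fd0_co.SQ2

open Pool.Agent.Lib.MP_688fd0_co.OSF
open V (Puz)
open V.Puz (St)

universe u v w

namespace Real

variable {S R : Type} [Fintype S] [DecidableEq S] {P : Puz S R} {Q : Type u} [Group Q] [DecidableEq Q]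
  {B : Lb.{u, v} Q} {a : B.L} (Z : Real P B a)

/-! ### Timing -/

/-- The next level for the gadget of `r`. -/
def nx (t : ℕ) (r : R) : ℕ := t + (Z.lev r + Z.e - t % Z.e) % Z.e

theorem nx_mod (t : ℕ) (r : R) : Z.nx t r % Z.e = Z.lev r := by
  unfold nx
  have h1 := Nat.mod_lt t Z.he
  have h2 := Z.lev_lt r
  rw [Nat.add_mod, Nat.mod_mod, ← Nat.add_mod]
  have h3 : (t + (Z.lev r + Z.e - t % Z.e)) % Z.e = Z.lev r := by
    have h4 : t + (Z.lev r + Z.e - t % Z.e) = Z.lev r + Z.e * (t / Z.e + 1) := by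
      have h5 := Nat.div_add_mod t Z.e
      rw [mul_add, mul_one]
      omega
    rw [h4, Nat.add_mul_mod_self_left, Nat.mod_eq_of_lt h2]
  exact h3

theorem le_nx (t : ℕ) (r : R) : t ≤ Z.nx t r := Nat.le_add_right _ _

theorem nx_lt (t : ℕ) (r : R) : Z.nx t r < t + Z.e := by
  unfold nx
  have := Nat.mod_lt (Z.lev r + Z.e - t % Z.e) Z.he
  omega

/-- A walk at the earliest possible levels. -/
def timed : ℕ → List (R × S) → List (TL S R)
  | _, [] => []
  | t, p :: l => ⟨p.1, p.2, Z.nx t p.1⟩ :: timed (Z.nx t p.1 + Z.H p.1) l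

/-- The walk of a timed word. -/
def untime (l : List (TL S R)) : List (R × S) := l.map fun x => (x.r, x.v)

theorem untime_timed (t : ℕ) (l : List (R × S)) : untime (Z.timed t l) = l := by
  induction l generalizing t with
  | nil => rfl
  | cons p l ih =>
    show (p.1, p.2) :: untime (Z.timed _ l) = p :: l
    rw [ih]

variable {Z}

theorem val_timed {Tok : Type} (l : List (R × S)) : ∀ (t : ℕ) (s : St S R Tok), P.Ok s l →
    Z.Val t s.1 (Z.timed t l) := by
  induction l with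
  | nil => intro t s _; exact trivial
  | cons p l ih =>
    intro t s h
    exact ⟨h.1, Z.le_nx _ _, Z.nx_mod _ _, ih _ _ h.2⟩

theorem runT_timed {Tok : Type} (l : List (R × S)) : ∀ (t : ℕ) (s : St S R Tok),
    runT P (Z.timed t l) s = P.go s l := by
  induction l with
  | nil => intro t s; rfl
  | cons p l ih => intro t s; exact ih _ _

theorem endT_timed {M : ℕ} (hM : ∀ r, Z.H r ≤ M) (l : List (R × S)) : ∀ t : ℕ,
    Z.endT t (Z.timed t l) ≤ t + l.length * (Z.e + M) := by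
  induction l with
  | nil => intro t; exact Nat.le_add_right _ _
  | cons p l ih =>
    intro t
    show Z.endT (Z.nx t p.1 + Z.H p.1) (Z.timed _ l) ≤ _
    refine le_trans (ih _) ?_
    have h1 := Z.nx_lt t p.1
    have h2 := hM p.1
    rw [List.length_cons, Nat.add_mul, one_mul]
    omega

/-- Valid words that follow each other. -/
theorem val_append {Tok : Type} (l l' : List (TL S R)) : ∀ (t : ℕ) (s : St S R Tok), Z.Val t s.1 l →
    Z.Val (Z.endT t l) (runT P l s).1 l' → Z.Val t s.1 (l ++ l') := by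
  induction l with
  | nil => intro t s _ h; exact h
  | cons x l ih =>
    intro t s h h'
    exact ⟨h.1, h.2.1, h.2.2.1, ih _ (P.step x.r x.v s) h.2.2.2 h'⟩

/-- A valid word may start later. -/
theorem val_le {r : R} (l : List (TL S R)) {t t' : ℕ} (ht : t ≤ t') (h : Z.Val t' r l) : Z.Val t r l := by
  cases l with
  | nil => exact trivial
  | cons x l => exact ⟨h.1, le_trans ht h.2.1, h.2.2.1, h.2.2.2⟩

/-- A valid word may be shifted by multiples of `e`. -/
theorem val_sh (k : ℕ) (l : List (TL S R)) : ∀ (t : ℕ) (r : R), Z.Val t r l →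
    Z.Val (t + Z.e * k) r (l.map (TL.sh (Z.e * k))) := by
  induction l with
  | nil => intro t r _; exact trivial
  | cons x l ih =>
    intro t r h
    refine ⟨h.1, ?_, ?_, ?_⟩
    · have := h.2.1
      show t + Z.e * k ≤ x.t + Z.e * k
      omega
    · show (x.t + Z.e * k) % Z.e = _
      rw [Nat.add_mul_mod_self_left]; exact h.2.2.1
    · show Z.Val (x.t + Z.e * k + Z.H x.r) (P.tau x.r) _
      rw [show x.t + Z.e * k + Z.H x.r = x.t + Z.H x.r + Z.e * k by omega]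
      exact ih _ _ h.2.2.2

/-! ### Two versions -/

section cost

variable {F : Type w} [CommRing F] {V : Vd B F} (D : Z.VD V) {Tok : Type} [Fintype Tok] (d : Tok → F)

theorem tc_t (c : F) (t₁ t₂ : ℕ) (r : R) (x : TL S R) (hx : P.Adj r x.r x.v) (L : S) :
    tc D c t₁ r x L = tc D c t₂ r x L +
      (D.gg t₂ - D.gg t₁) * (D.om L + if L = P.oth x.r x.v then D.om (P.oth r x.v) - D.om x.v else 0) := by
  obtain ⟨xr, xv, xt⟩ := x
  simp only at hx ⊢
  unfold tc
  simp only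
  by_cases h : L = P.oth xr xv
  · rw [if_pos h, if_pos h, if_pos h]
    by_cases hv : xv = P.x r
    · rw [if_pos hv, if_pos hv]
      have e3 : P.oth r xv = P.y r := by unfold Puz.oth; rw [if_pos hv]
      rw [e3, ← hv]
      ring
    · have hv2 : xv = P.y r := by rcases hx.1 with h' | h'; exact absurd h' hv; exact h'
      rw [if_neg hv, if_neg hv]
      have e3 : P.oth r xv = P.x r := by unfold Puz.oth; rw [if_neg hv]
      rw [e3, ← hv2]
      ring
  · rw [if_neg h, if_neg h, if_neg h]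
    ring

/-- Waiting from another level. -/
theorem wcs_t (c : F) (t₁ t₂ : ℕ) (s : St S R Tok) (x : TL S R) (l : List (TL S R)) (hx : P.Adj s.1 x.r x.v) :
    wcs D d c t₁ s (x :: l) = wcs D d c t₂ s (x :: l) + (D.gg t₂ - D.gg t₁) * Gam D d s x.r x.v := by
  show wc D d c t₁ s x + _ = wc D d c t₂ s x + _ + _
  have h2 : wc D d c t₁ s x = wc D d c t₂ s x + (D.gg t₂ - D.gg t₁) * Gam D d s x.r x.v := by
    unfold wc Gam
    rw [Finset.mul_sum, ← Finset.sum_add_distrib]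
    refine Finset.sum_congr rfl fun i _ => ?_
    rw [tc_t D c t₁ t₂ s.1 x hx]
    ring
  rw [h2]; ring

theorem capE_tau (l : List (TL S R)) : ∀ (c : F) (s : St S R Tok), c = D.ca (P.tau.symm s.1) →
    capE D c l = D.ca (P.tau.symm (runT P l s).1) := by
  induction l with
  | nil => intro c s h; exact h
  | cons x l ih =>
    intro c s _
    refine ih _ (P.step x.r x.v s) ?_
    show D.ca x.r = D.ca (P.tau.symm (P.tau x.r))
    rw [Equiv.symm_apply_apply]

end cost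

/-- The sum over the tokens of a window. -/
theorem sum_tok {X : TW B} {t₀ : ℕ} {f : R} {v : S} (hv : P.On f v) (h₀ : X.L₀ = Z.Fr t₀)
    (hu₀ : X.u₀ = Z.vt (P.oth f v) t₀) (hu₁ : X.u₁ = Z.vt v t₀) {M : Type w} [AddCommMonoid M] (G : Q → M) :
    ∑ x ∈ X.tok₀, G x = ∑ i : P.TokOf f, G (Z.vt i.1 t₀) := by
  symm
  refine Finset.sum_bij (fun i _ => Z.vt i.1 t₀) ?_ ?_ ?_ ?_
  · intro i _
    rw [TW.mem_tok₀, h₀, hu₀, hu₁]
    refine ⟨Z.vt_mem _ _, fun h => i.2 ?_, fun h => i.2 ?_⟩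
    · rw [Z.vt_inj h]; exact V.Puz.on_oth f v
    · rw [Z.vt_inj h]; exact hv
  · intro i _ j _ h
    exact Subtype.ext (Z.vt_inj h)
  · intro x hx
    rw [TW.mem_tok₀, h₀, hu₀, hu₁] at hx
    obtain ⟨s, hs⟩ := Z.mem_Fr.1 hx.1
    refine ⟨⟨s, fun hon => ?_⟩, Finset.mem_univ _, hs⟩
    rw [V.Puz.on_iff hv] at hon
    rcases hon with h1 | h1
    · exact hx.2.2 (by rw [← hs, h1])
    · exact hx.2.1 (by rw [← hs, h1])
  · intro i _; rfl

/-- The data of a tree window: the cup rung `f`, the cap rung `g`, their common strand `v`, the first level `t₀`, the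
closing walk `m`, the level `tC` where the closing word starts, the last level `T`. -/
structure WData (Z : Real P B a) where
  f : R
  g : R
  v : S
  t₀ : ℕ
  m : List (R × S)
  tC : ℕ
  T : ℕ
  adj : P.Adj g f v
  ht₀ : t₀ % Z.e = Z.lev f
  ok : P.Ok (P.st₁ f) m
  go : P.go (P.st₁ f) m = P.stb f g v
  hC : t₀ + Z.H f ≤ tC
  hT : Z.endT tC (Z.timed tC ((f, v) :: m)) ≤ T
  h0 : t₀ < T

namespace WData

variable (W : WData Z)

/-- The closing word. -/
def cl : List (TL S R) := Z.timed W.tC ((W.f, W.v) :: W.m)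

/-- `X` is a window with these data. -/
structure Is (X : TW B) : Prop where
  L₀ : X.L₀ = Z.Fr W.t₀
  u₀ : X.u₀ = Z.vt (P.oth W.f W.v) W.t₀
  u₁ : X.u₁ = Z.vt W.v W.t₀
  cup : X.cup = cupF Z W.f W.v W.t₀
  cap : X.cap = capF a P W.g W.v (Z.lcap [] W.cl) (W.T - Z.endT W.tC W.cl)
  flat : Flat a X (W.T - W.t₀) (Z.vt (P.oth W.g W.v) W.t₀)

/-- The start. -/
def t₁ : ℕ := W.t₀ + Z.H W.f

theorem ok_cl : P.Ok (P.stb W.f W.g W.v) ((W.f, W.v) :: W.m) := by
  refine ⟨W.adj, ?_⟩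
  show P.Ok (P.step W.f W.v (P.stb W.f W.g W.v)) W.m
  rw [P.stb_step W.adj]; exact W.ok

theorem go_cl : P.go (P.stb W.f W.g W.v) ((W.f, W.v) :: W.m) = P.stb W.f W.g W.v := by
  show P.go (P.step W.f W.v (P.stb W.f W.g W.v)) W.m = _
  rw [P.stb_step W.adj]; exact W.go

/-- The window of a word. -/
theorem win (l : List (TL S R)) (hl : Z.Val W.t₁ (P.tau W.f) l)
    (hs : runT P l (P.st₁ W.f) = P.stb W.f W.g W.v) (he : Z.endT W.t₁ l ≤ W.tC) :
    ∃ X : TW B, W.Is X ∧ ∀ {F : Type w} [CommRing F] (V : Vd B F) (D : Z.VD V) (d : P.TokOf W.f → F),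
        ∑ i : P.TokOf W.f, d i * V.vol (Z.vt i.1 W.t₀) (X.path (Z.vt i.1 W.t₀)) =
          ∑ i : P.TokOf W.f, d i * D.th W.f i.1 + (wcs D d (D.ca W.f) W.t₁ (P.st₁ W.f) l +
          wcs D d (capE D (D.ca W.f) l) (Z.endT W.t₁ l) (P.stb W.f W.g W.v) W.cl) +
          (D.gg W.T - D.gg (Z.endT W.tC W.cl)) *
            ∑ i : P.TokOf W.f, d i * D.om ((P.stb W.f W.g W.v).2 i) := by
  have hcl : Z.Val W.tC W.g W.cl := val_timed _ W.tC (P.stb W.f W.g W.v) W.ok_cl
  have hcl' : Z.Val (Z.endT W.t₁ l) W.g W.cl := val_le _ he hcl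
  have hend : Z.endT W.t₁ (l ++ W.cl) = Z.endT W.tC W.cl := by
    rw [endT_append]; rfl
  have hval : Z.Val W.t₁ (P.st₁ W.f).1 (l ++ W.cl) := by
    refine val_append _ _ _ _ hl ?_
    rw [hs]; exact hcl'
  have hrun : runT P (l ++ W.cl) (P.st₁ W.f) = P.stb W.f W.g W.v := by
    rw [runT_append, hs]
    show runT P (Z.timed W.tC ((W.f, W.v) :: W.m)) _ = _
    rw [runT_timed]; exact W.go_cl
  obtain ⟨X, h1, h2, h3, h4, h5, h6, h7⟩ := flat.{u, v, w} W.f W.g W.v W.adj W.ht₀ (l ++ W.cl) hval hrun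
    (T := W.T) (by
      show Z.endT W.t₁ _ ≤ _
      rw [hend]; exact W.hT) W.h0
  have e1 : Z.endT (W.t₀ + Z.H W.f) (l ++ W.cl) = Z.endT W.tC W.cl := hend
  refine ⟨X, ⟨h1, h2, h3, h4, ?_, h6⟩, ?_⟩
  · rw [h5, e1, lcap_append]; rfl
  · intro F _ V D d
    rw [h7 V D d, e1, wcs_append, hs]
    rfl

/-- Two words: two versions. -/
theorem two (l l' : List (TL S R)) (hl : Z.Val W.t₁ (P.tau W.f) l)
    (hs : runT P l (P.st₁ W.f) = P.stb W.f W.g W.v) (he : Z.endT W.t₁ l ≤ W.tC)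
    (hl' : Z.Val W.t₁ (P.tau W.f) l') (hs' : runT P l' (P.st₁ W.f) = P.stb W.f W.g W.v)
    (he' : Z.endT W.t₁ l' ≤ W.tC) :
    ∃ X X' : TW B, W.Is X ∧ Ver a X X' (W.T - W.t₀) (Z.vt (P.oth W.g W.v) W.t₀) ∧
      ∀ {F : Type w} [CommRing F] (V : Vd B F) (D : Z.VD V) (c : Q → Bool) (d : S → F),
        (∀ s, d s = if c (Z.vt s W.t₀) then 1 else -1) →
        dvol V c X X' = wcs D (fun i : P.TokOf W.f => d i.1) (D.ca W.f) W.t₁ (P.st₁ W.f) l' -
          wcs D (fun i : P.TokOf W.f => d i.1) (D.ca W.f) W.t₁ (P.st₁ W.f) l -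
          (D.gg (Z.endT W.t₁ l') - D.gg (Z.endT W.t₁ l)) *
            Gam D (fun i : P.TokOf W.f => d i.1) (P.stb W.f W.g W.v) W.f W.v := by
  obtain ⟨X, hX, hv⟩ := W.win.{u, v, w} l hl hs he
  obtain ⟨X', hX', hv'⟩ := W.win.{u, v, w} l' hl' hs' he'
  refine ⟨X, X', hX, ⟨hX.flat, hX'.flat, by rw [hX.L₀, hX'.L₀], by rw [hX.u₀, hX'.u₀], by rw [hX.u₁, hX'.u₁],
    by rw [hX.cup, hX'.cup], by rw [hX.cap, hX'.cap]⟩, ?_⟩
  intro F _ V D c d hd
  have h1 := hv V D fun i => d i.1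
  have h2 := hv' V D fun i => d i.1
  have e1 : dvol V c X X' = ∑ i : P.TokOf W.f, d i.1 * V.vol (Z.vt i.1 W.t₀) (X'.path (Z.vt i.1 W.t₀)) -
      ∑ i : P.TokOf W.f, d i.1 * V.vol (Z.vt i.1 W.t₀) (X.path (Z.vt i.1 W.t₀)) := by
    unfold dvol
    rw [sum_tok (Z := Z) W.adj.2.1 hX.L₀ hX.u₀ hX.u₁, ← Finset.sum_sub_distrib]
    refine Finset.sum_congr rfl fun i _ => ?_
    rw [hd, mul_sub]
  have c1 : capE D (D.ca W.f) l = D.ca (P.tau.symm W.g) := by
    rw [capE_tau D l (D.ca W.f) (P.st₁ W.f) (by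
      show D.ca W.f = D.ca (P.tau.symm (P.tau W.f)); rw [Equiv.symm_apply_apply]), hs]
    rfl
  have c2 : capE D (D.ca W.f) l' = D.ca (P.tau.symm W.g) := by
    rw [capE_tau D l' (D.ca W.f) (P.st₁ W.f) (by
      show D.ca W.f = D.ca (P.tau.symm (P.tau W.f)); rw [Equiv.symm_apply_apply]), hs']
    rfl
  have c3 : wcs D (fun i : P.TokOf W.f => d i.1) (D.ca (P.tau.symm W.g)) (Z.endT W.t₁ l')
      (P.stb W.f W.g W.v) W.cl = wcs D (fun i : P.TokOf W.f => d i.1) (D.ca (P.tau.symm W.g)) (Z.endT W.t₁ l)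
      (P.stb W.f W.g W.v) W.cl + (D.gg (Z.endT W.t₁ l) - D.gg (Z.endT W.t₁ l')) *
        Gam D (fun i : P.TokOf W.f => d i.1) (P.stb W.f W.g W.v) W.f W.v :=
    wcs_t D _ _ _ _ _ ⟨W.f, W.v, Z.nx W.tC W.f⟩ _ W.adj
  rw [e1, h1, h2, c1, c2, c3]
  ring

end WData

end Real

end Pool.Agent.Lib.MP_688fd0_co.SQ2
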